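import Pool.Agent.LibSumset.Four

set_option autoImplicit false

open Filter Topology

namespace Pool.Agent.LibSumset

variable (N : ℕ)

/-- The group: a countable direct sum of copies of `ZMod N`. -/
abbrev GN : Type := ℕ →₀ ZMod N

/-- inclusion of the first `M` coordinates -/
noncomputable def inc (M : ℕ) : (Fin M → ZMod N) →+ GN N where
  toFun s := ∑ i : Fin M, Finsupp.single (i : ℕ) (s i)
  map_zero' := by simp
  map_add' s t := by simp [Finsupp.single_add, Finset.sum_add_distrib]

theorem inc_apply (M : ℕ) (s : Fin M → ZMod N) :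
    inc N M s = ∑ i : Fin M, Finsupp.single (i : ℕ) (s i) := rfl

/-- characters of the direct sum -/
noncomputable def th (a : ℕ → ZMod N) : GN N →+ ZMod N :=
  (Finsupp.linearCombination (ZMod N) a).toAddMonoidHom

theorem th_single (a : ℕ → ZMod N) (n : ℕ) (x : ZMod N) :
    th N a (Finsupp.single n x) = x * a n := by
  unfold th
  simp [Finsupp.linearCombination_single]

theorem th_inc (a : ℕ → ZMod N) (M : ℕ) (s : Fin M → ZMod N) :
    th N a (inc N M s) = dot N s (fun i => a i) := by
  rw [inc_apply, map_sum]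
  unfold dot
  exact Finset.sum_congr rfl fun i _ => by rw [th_single, mul_comm]

theorem inc_of_supp (M : ℕ) (g : GN N) (h : ∀ n ∈ g.support, n < M) :
    inc N M (fun i => g i) = g := by
  rw [inc_apply]
  have h1 : ∑ i : Fin M, Finsupp.single (i : ℕ) (g i) =
      ∑ n ∈ Finset.range M, Finsupp.single n (g n) := by
    rw [Finset.sum_range]
  rw [h1]
  conv_rhs => rw [← Finsupp.sum_single g]
  unfold Finsupp.sum
  symm
  refine Finset.sum_subset (fun n hn => Finset.mem_range.2 (h n hn)) fun n _ hn => ?_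
  rw [Finsupp.notMem_support_iff.1 hn, Finsupp.single_zero]

theorem eventually_mem_inc (g : GN N) : ∀ᶠ M in atTop, g ∈ Set.range (inc N M) := by
  filter_upwards [eventually_gt_atTop (g.support.sup id)] with M hM
  exact ⟨_, inc_of_supp N M g fun n hn => lt_of_le_of_lt (Finset.le_sup (f := id) hn) hM⟩

theorem inc_mem_of_le {M M' : ℕ} (h : M ≤ M') (s : Fin M → ZMod N) :
    ∃ t, inc N M' t = inc N M s := by
  refine ⟨fun i => (inc N M s) i, inc_of_supp N M' _ fun n hn => ?_⟩
  by_contra hcon
  rw [Finsupp.mem_support_iff] at hn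
  apply hn
  rw [inc_apply, Finsupp.finsetSum_apply]
  refine Finset.sum_eq_zero fun i _ => ?_
  rw [Finsupp.single_apply, if_neg]
  have := i.2
  omega

section

variable [NeZero N]

theorem card_V (M : ℕ) : (Fintype.card (Fin M → ZMod N) : ℝ) = (N : ℝ) ^ M := by
  rw [Fintype.card_fun, ZMod.card, Fintype.card_fin]; push_cast; rfl

/-- cosine of a character, as a bounded function -/
noncomputable def cB (a : ℕ → ZMod N) : Bd (GN N) := ⟨fun t => eC N (th N a t), 1, fun _ => abs_eC_le N _⟩
/-- sine of a character, as a bounded function -/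
noncomputable def dB (a : ℕ → ZMod N) : Bd (GN N) := ⟨fun t => eD N (th N a t), 1, fun _ => abs_eD_le N _⟩

theorem cB_apply (a : ℕ → ZMod N) (t : GN N) : (cB N a).1 t = eC N (th N a t) := rfl
theorem dB_apply (a : ℕ → ZMod N) (t : GN N) : (dB N a).1 t = eD N (th N a t) := rfl

variable {N} {m : Bd (GN N) →ₗ[ℝ] ℝ}

/-- spectral mass of `w` on a cylinder -/
noncomputable def specM (m : Bd (GN N) →ₗ[ℝ] ℝ) (w : Bd (GN N)) (M : ℕ) (a : ℕ → ZMod N) : ℝ :=
  m (avg (inc N M) (w * cB N a) * avg (inc N M) (w * cB N a)) +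
  m (avg (inc N M) (w * dB N a) * avg (inc N M) (w * dB N a))

theorem specM_eq (hm : IsMean m) (w : Bd (GN N)) (M : ℕ) (a : ℕ → ZMod N) :
    specM m w M a = ((N : ℝ) ^ M)⁻¹ * ∑ s : Fin M → ZMod N,
      m (w * T (inc N M s) w) * eC N (dot N s (fun i => a i)) := by
  unfold specM
  rw [hm.avg_avg_mul, hm.avg_avg_mul]
  unfold avg
  rw [card_V, smul_mul_assoc, smul_mul_assoc, map_smul, map_smul, Finset.sum_mul, Finset.sum_mul,
    map_sum, map_sum, smul_eq_mul, smul_eq_mul, ← mul_add, ← Finset.sum_add_distrib]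
  congr 1
  refine Finset.sum_congr rfl fun s _ => ?_
  rw [← map_add]
  have : T (inc N M s) (w * cB N a) * (w * cB N a) + T (inc N M s) (w * dB N a) * (w * dB N a) =
      eC N (dot N s (fun i => a i)) • (w * T (inc N M s) w) := by
    ext t
    simp only [Bd.coe_add_apply, Bd.coe_mul_apply, T_apply, cB_apply, dB_apply,
      Bd.coe_smul_apply]
    have e : eC N (th N a (t + inc N M s)) * eC N (th N a t) +
        eD N (th N a (t + inc N M s)) * eD N (th N a t) = eC N (dot N s (fun i => a i)) := by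
      rw [← eC_sub, map_add, add_sub_cancel_left, th_inc]
    rw [← e]; ring
  rw [this, map_smul, smul_eq_mul, mul_comm]

theorem specM_nonneg (hm : IsMean m) (w : Bd (GN N)) (M : ℕ) (a : ℕ → ZMod N) :
    0 ≤ specM m w M a := add_nonneg (hm.sq_nonneg _) (hm.sq_nonneg _)

theorem avg_avg_of_le {M M' : ℕ} (h : M ≤ M') (φ : Bd (GN N)) :
    avg (inc N M') (avg (inc N M) φ) = avg (inc N M') φ := by
  have h1 : avg (inc N M) φ = (Fintype.card (Fin M → ZMod N) : ℝ)⁻¹ •
      ∑ s : Fin M → ZMod N, T (inc N M s) φ := rfl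
  rw [h1, avg_smul]
  have h2 : ∀ S : Finset (Fin M → ZMod N), avg (inc N M') (∑ s ∈ S, T (inc N M s) φ) =
      (S.card : ℝ) • avg (inc N M') φ := by
    intro S
    classical
    induction S using Finset.induction_on with
    | empty =>
      simp only [Finset.sum_empty, Finset.card_empty, Nat.cast_zero, zero_smul]
      unfold avg; simp
    | insert s S hs ih =>
      rw [Finset.sum_insert hs, avg_add, ih, Finset.card_insert_of_notMem hs]
      obtain ⟨t, ht⟩ := inc_mem_of_le N h s
      rw [← ht, avg_T]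
      push_cast
      rw [add_smul, one_smul, add_comm]
  rw [h2, smul_smul, Finset.card_univ, inv_mul_cancel₀ card_pos'.ne', one_smul]

theorem specM_anti (hm : IsMean m) (w : Bd (GN N)) {M M' : ℕ} (h : M ≤ M') (a : ℕ → ZMod N) :
    specM m w M' a ≤ specM m w M a := by
  unfold specM
  rw [← avg_avg_of_le h (w * cB N a), ← avg_avg_of_le h (w * dB N a)]
  exact add_le_add (hm.avg_sq_le _ _) (hm.avg_sq_le _ _)

theorem exists_branch (hm : IsMean m) (w : Bd (GN N)) {c : ℝ}
    (h : ∀ M, ∃ a : ℕ → ZMod N, c ≤ specM m w M a) :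
    ∃ a : ℕ → ZMod N, ∀ M, c ≤ specM m w M a := by
  choose a ha using h
  set U : Ultrafilter ℕ := Filter.hyperfilter ℕ with hU
  have h1 : ∀ n : ℕ, ∃ x : ZMod N, ∀ᶠ M in (U : Filter ℕ), a M n = x := by
    intro n
    obtain ⟨x, hx⟩ := Ultrafilter.eq_pure_of_finite (U.map fun M => a M n)
    refine ⟨x, ?_⟩
    have h2 : ({x} : Set (ZMod N)) ∈ U.map fun M => a M n := by
      rw [hx]; exact rfl
    exact h2
  choose b hb using h1
  refine ⟨b, fun M => ?_⟩
  have h3 : ∀ᶠ M' in (U : Filter ℕ), ∀ i : Fin M, a M' i = b i :=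
    Filter.eventually_all.2 fun i => hb i
  have h4 : ∀ᶠ M' in (U : Filter ℕ), M ≤ M' := Nat.hyperfilter_le_atTop (eventually_ge_atTop M)
  obtain ⟨M', h5, h6⟩ := (h3.and h4).exists
  have h7 : specM m w M (a M') = specM m w M b := by
    rw [specM_eq hm, specM_eq hm]
    have : (fun i : Fin M => a M' i) = fun i : Fin M => b i := funext h5
    rw [this]
  rw [← h7]
  exact (ha M').trans (specM_anti hm w h6 _)

/-- The key weak mixing estimate. -/
theorem exists_small_corr (hm : IsErg m) (w : Bd (GN N)) {c : ℝ}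
    (h : ∀ a : ℕ → ZMod N, (m (w * cB N a)) ^ 2 + (m (w * dB N a)) ^ 2 < c) :
    ∃ M, ((N : ℝ) ^ M)⁻¹ * ∑ s : Fin M → ZMod N, (m (w * T (inc N M s) w)) ^ 2 ≤ c * m (w * w) := by
  have hM : IsMean m := hm.toIsMean
  have h1 : ∃ M, ∀ a : ℕ → ZMod N, specM m w M a < c := by
    by_contra hcon
    push Not at hcon
    obtain ⟨a, ha⟩ := exists_branch hM w hcon
    have l1 := erg_lim_sq (fun M => inc N M) hm (Filter.hyperfilter ℕ) Nat.hyperfilter_le_atTop
      (eventually_mem_inc N) (w * cB N a)
    have l2 := erg_lim_sq (fun M => inc N M) hm (Filter.hyperfilter ℕ) Nat.hyperfilter_le_atTop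
      (eventually_mem_inc N) (w * dB N a)
    have l3 := ge_of_tendsto' (l1.add l2) ha
    have := h a
    rw [sq, sq] at this
    linarith
  obtain ⟨M, hM1⟩ := h1
  refine ⟨M, ?_⟩
  have hW : ∀ s : Fin M → ZMod N, m (w * T (inc N M (-s)) w) = m (w * T (inc N M s) w) := by
    intro s; rw [map_neg, hM.W_neg]
  rw [← parseval N (fun s => m (w * T (inc N M s) w)) hW]
  have hinv := inversion N (fun s : Fin M → ZMod N => m (w * T (inc N M s) w))
  simp only [map_zero, T_zero] at hinv
  have hext : ∀ a : Fin M → ZMod N, ((N : ℝ) ^ M)⁻¹ * ∑ s : Fin M → ZMod N,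
      m (w * T (inc N M s) w) * eC N (dot N s a) =
      specM m w M (fun n => if h : n < M then a ⟨n, h⟩ else 0) := by
    intro a
    rw [specM_eq hM]
    congr 1
    refine Finset.sum_congr rfl fun s _ => ?_
    congr 3
    funext i
    simp
  rw [← hinv, Finset.mul_sum]
  refine Finset.sum_le_sum fun a _ => ?_
  rw [hext a, sq]
  exact mul_le_mul_of_nonneg_right (hM1 _).le (specM_nonneg hM _ _ _)

end

end Pool.Agent.LibSumset
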