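import Pool.Agent.LibSumset.Step3
import Pool.Agent.LibSumset.Spec

set_option autoImplicit false

open Filter Topology

namespace Pool.Agent.LibSumset

section build

variable {G : Type*} [AddCommGroup G] {m : Bd G →ₗ[ℝ] ℝ}

theorem build [Infinite G] (hm : IsMean m) (Hs : ℕ → AddSubgroup G)
    [hfi : ∀ j, (Hs j).FiniteIndex]
    (hanti : Antitone Hs) (p : G ≃+ G) (hp : ∀ H : AddSubgroup G, H.map (p : G →+ G) = H)
    (hp2 : ∀ t, p t = t + t) (S : Set G)
    (hWM : ∀ η : ℝ, 0 < η → ∀ᶠ J in atTop, ∀ φ : Bd G, m (φ * φ) ≤ 1 →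
      m (cor hm φ (ind S - cE (Hs J) hm (ind S)) * cor hm φ (ind S - cE (Hs J) hm (ind S))) ≤ η)
    {κ : ℝ} (hκ : 0 < κ) (hκ1 : κ ≤ 1) (C : Set G) (hR : Rob hm Hs p (ind S) κ C) :
    ∃ B : Set G, B.Infinite ∧ B ⊆ C ∧ ∀ x ∈ B, ∀ y ∈ B, x ≠ y → x + y ∉ S := by
  classical
  let CF : Finset G → Set G := fun F => {t | t ∈ C ∧ ∀ v ∈ F, t + v ∉ S}
  let Good : Finset G → Prop := fun F => ∃ κ : ℝ, 0 < κ ∧ κ ≤ 1 ∧ Rob hm Hs p (ind S) κ (CF F)
  have hstep : ∀ F : Finset G, Good F → ∃ u, u ∈ CF F ∧ u ∉ F ∧ Good (insert u F) := by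
    rintro F ⟨κ, h0, h1, hF⟩
    obtain ⟨u, hu1, hu2, κ', h0', h1', hF'⟩ := step hm Hs hanti p hp hp2 S hWM h0 h1 _ hF F
    refine ⟨u, hu1, hu2, κ', h0', h1', ?_⟩
    have : CF (insert u F) = {t | t ∈ CF F ∧ t + u ∉ S} := by
      ext t
      simp only [CF, Set.mem_ofPred_eq, Finset.mem_insert, forall_eq_or_imp]
      tauto
    rw [this]
    exact hF'
  have hg0 : Good ∅ := by
    refine ⟨κ, hκ, hκ1, ?_⟩
    have : CF ∅ = C := by ext t; simp [CF]
    rw [this]; exact hR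
  choose nxt hnxt1 hnxt2 hnxt3 using hstep
  let Fs : ℕ → {F : Finset G // Good F} := fun n =>
    Nat.rec ⟨∅, hg0⟩ (fun _ F => ⟨insert (nxt F.1 F.2) F.1, hnxt3 F.1 F.2⟩) n
  let u : ℕ → G := fun n => nxt (Fs n).1 (Fs n).2
  have hFs : ∀ n, (Fs (n + 1)).1 = insert (u n) (Fs n).1 := fun n => rfl
  have hmono : ∀ n k, n ≤ k → (Fs n).1 ⊆ (Fs k).1 := by
    intro n k h
    induction k, h using Nat.le_induction with
    | base => exact Finset.Subset.refl _
    | succ k _ ih =>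
      rw [hFs]
      exact ih.trans (Finset.subset_insert _ _)
  have hmem : ∀ n k, n < k → u n ∈ (Fs k).1 := by
    intro n k h
    refine hmono (n + 1) k h ?_
    rw [hFs]
    exact Finset.mem_insert_self _ _
  have hpair : ∀ n k, n < k → u k + u n ∉ S := by
    intro n k h
    exact (hnxt1 (Fs k).1 (Fs k).2).2 (u n) (hmem n k h)
  have hinj : Function.Injective u := by
    intro n k h
    by_contra hne
    rcases lt_or_gt_of_ne hne with h1 | h1
    · have := hmem n k h1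
      rw [h] at this
      exact hnxt2 (Fs k).1 (Fs k).2 this
    · have := hmem k n h1
      rw [← h] at this
      exact hnxt2 (Fs n).1 (Fs n).2 this
  refine ⟨Set.range u, Set.infinite_range_of_injective hinj, ?_, ?_⟩
  · rintro _ ⟨n, rfl⟩
    exact (hnxt1 (Fs n).1 (Fs n).2).1
  · rintro _ ⟨n, rfl⟩ _ ⟨k, rfl⟩ hne
    have hne' : n ≠ k := fun h => hne (by rw [h])
    rcases lt_or_gt_of_ne hne' with h1 | h1
    · rw [add_comm]; exact hpair n k h1
    · exact hpair k n h1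

theorem exists_max (hm : IsMean m) {ι : Type*} [Fintype ι] (S : ι → Set G) {ε : ℝ} (hε : 0 < ε) :
    ∃ H : AddSubgroup G, H.FiniteIndex ∧ ∀ H' : AddSubgroup G, H'.FiniteIndex →
      ∑ i, en H' hm (ind (S i)) ≤ ∑ i, en H hm (ind (S i)) + ε := by
  set X : Set ℝ := {x | ∃ H : AddSubgroup G, H.FiniteIndex ∧ x = ∑ i, en H hm (ind (S i))} with hX
  have hne : X.Nonempty := ⟨_, ⊤, inferInstance, rfl⟩
  have hb : BddAbove X := by
    refine ⟨∑ i : ι, 1, ?_⟩
    rintro x ⟨H, hH, rfl⟩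
    exact Finset.sum_le_sum fun i _ => en_le_one H hm _ (ind_nonneg _) (ind_le_one _)
  obtain ⟨x, ⟨H, hH, rfl⟩, hx⟩ := exists_lt_of_lt_csSup hne (show sSup X - ε < sSup X by linarith)
  refine ⟨H, hH, fun H' hH' => ?_⟩
  have : ∑ i, en H' hm (ind (S i)) ≤ sSup X := le_csSup hb ⟨H', hH', rfl⟩
  linarith

theorem exists_chain (hm : IsMean m) {ι : Type*} [Fintype ι] (S : ι → Set G) :
    ∃ Hs : ℕ → AddSubgroup G, (∀ j, (Hs j).FiniteIndex) ∧ Antitone Hs ∧
      ∀ j, ∀ H' : AddSubgroup G, H' ≤ Hs j → H'.FiniteIndex → ∀ i,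
        en H' hm (ind (S i)) ≤ en (Hs j) hm (ind (S i)) + 1 / ((j : ℝ) + 1) := by
  classical
  have h1 : ∀ j : ℕ, ∃ H : AddSubgroup G, H.FiniteIndex ∧ ∀ H' : AddSubgroup G, H'.FiniteIndex →
      ∑ i, en H' hm (ind (S i)) ≤ ∑ i, en H hm (ind (S i)) + 1 / ((j : ℝ) + 1) := fun j =>
    exists_max hm S (by positivity)
  choose K hK1 hK2 using h1
  obtain ⟨Hs, hHs0, hHs⟩ : ∃ Hs : ℕ → AddSubgroup G, Hs 0 = K 0 ∧
      ∀ n, Hs (n + 1) = Hs n ⊓ K (n + 1) :=
    ⟨fun n => Nat.rec (motive := fun _ => AddSubgroup G) (K 0) (fun n H => H ⊓ K (n + 1)) n, rfl,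
      fun n => rfl⟩
  have hfin : ∀ n, (Hs n).FiniteIndex := by
    intro n
    induction n with
    | zero => rw [hHs0]; exact hK1 0
    | succ n ih =>
      rw [hHs]
      have h1 : (Hs n).FiniteIndex := ih
      have h2 : (K (n + 1)).FiniteIndex := hK1 (n + 1)
      exact (inferInstance : (Hs n ⊓ K (n + 1)).FiniteIndex)
  have hle : ∀ n, Hs n ≤ K n := by
    intro n
    cases n with
    | zero => rw [hHs0]
    | succ n => rw [hHs]; exact inf_le_right
  refine ⟨Hs, hfin, antitone_nat_of_succ_le fun n => by rw [hHs]; exact inf_le_left, ?_⟩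
  intro j H' hH' hfi i
  have hfj := hfin j
  have hKj := hK1 j
  have h2 : ∑ i, en H' hm (ind (S i)) ≤ ∑ i, en (Hs j) hm (ind (S i)) + 1 / ((j : ℝ) + 1) := by
    refine (hK2 j H' hfi).trans ?_
    have : ∑ i, en (K j) hm (ind (S i)) ≤ ∑ i, en (Hs j) hm (ind (S i)) :=
      Finset.sum_le_sum fun i _ => en_mono (H := K j) (H' := Hs j) hm _ (hle j)
    linarith
  have h3 : ∀ k, en (Hs j) hm (ind (S k)) ≤ en H' hm (ind (S k)) := fun k =>
    en_mono (H := Hs j) (H' := H') hm _ hH'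
  rw [← Finset.add_sum_erase _ _ (Finset.mem_univ i), ← Finset.add_sum_erase (a := i) _ _ (Finset.mem_univ i)] at h2
  have h4 : ∑ k ∈ Finset.univ.erase i, en (Hs j) hm (ind (S k)) ≤
      ∑ k ∈ Finset.univ.erase i, en H' hm (ind (S k)) := Finset.sum_le_sum fun k _ => h3 k
  linarith

end build

section GN

variable {N : ℕ} [NeZero N] {m : Bd (GN N) →ₗ[ℝ] ℝ}

theorem wm (hm : IsErg m) (S : Set (GN N)) (H : AddSubgroup (GN N)) [H.FiniteIndex] {ε : ℝ}
    (hε : 0 < ε)
    (hmax : ∀ H' : AddSubgroup (GN N), H' ≤ H → H'.FiniteIndex →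
      en H' hm.toIsMean (ind S) ≤ en H hm.toIsMean (ind S) + ε)
    (φ : Bd (GN N)) (hφ : m (φ * φ) ≤ 1) :
    m (cor hm.toIsMean φ (ind S - cE H hm.toIsMean (ind S)) *
      cor hm.toIsMean φ (ind S - cE H hm.toIsMean (ind S))) ≤ Real.sqrt (2 * ε) := by
  have hM := hm.toIsMean
  set w := ind S - cE H hm.toIsMean (ind S) with hw
  have h1 : ∀ a : ℕ → ZMod N, (m (w * cB N a)) ^ 2 + (m (w * dB N a)) ^ 2 < 2 * ε := by
    intro a
    have : (th N a).ker.FiniteIndex := inferInstance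
    set H' : AddSubgroup (GN N) := H ⊓ (th N a).ker with hH'
    have : H'.FiniteIndex := by rw [hH']; infer_instance
    have hH'le : H' ≤ H := inf_le_left
    set g := cE H' hm.toIsMean (ind S) - cE H hm.toIsMean (ind S) with hg
    have hth : ∀ x y : GN N, y - x ∈ H' → th N a y = th N a x := by
      intro x y h
      have h2 : y - x ∈ (th N a).ker := (inf_le_right : H' ≤ _) h
      rw [AddMonoidHom.mem_ker, map_sub, sub_eq_zero] at h2
      exact h2
    have hc : Per H' (cB N a) := fun x y h => by rw [cB_apply, cB_apply, hth x y h]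
    have hd : Per H' (dB N a) := fun x y h => by rw [dB_apply, dB_apply, hth x y h]
    have e1 : m (w * cB N a) = m (g * cB N a) := by
      rw [hw, hg, sub_mul, sub_mul, map_sub, map_sub, cE_mul_per H' hm.toIsMean _ hc]
    have e2 : m (w * dB N a) = m (g * dB N a) := by
      rw [hw, hg, sub_mul, sub_mul, map_sub, map_sub, cE_mul_per H' hm.toIsMean _ hd]
    have e3 : m (g * g) ≤ ε := by
      rw [hg, cE_diff hm.toIsMean _ hH'le]
      linarith [hmax H' hH'le inferInstance]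
    have e4 : m (cB N a * cB N a) + m (dB N a * dB N a) = 1 := by
      rw [← map_add, ← hM.one]
      congr 1
      ext t
      simp only [Bd.coe_add_apply, Bd.coe_mul_apply, cB_apply, dB_apply, Bd.coe_one_apply]
      exact eC_sq_add N _
    rw [e1, e2]
    have c1 := hM.cauchy_schwarz g (cB N a)
    have c2 := hM.cauchy_schwarz g (dB N a)
    have : m (g * g) * m (cB N a * cB N a) + m (g * g) * m (dB N a * dB N a) = m (g * g) := by
      rw [← mul_add, e4, mul_one]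
    linarith
  obtain ⟨M, hM1⟩ := exists_small_corr hm w h1
  refine cor_sq_le hm.toIsMean (inc N M) φ w hφ (Real.sqrt_nonneg _) ?_
  rw [card_V, Real.sq_sqrt (by positivity)]
  refine hM1.trans ?_
  have hww : m (w * w) ≤ 1 := by
    refine hM.le_of_le fun x => ?_
    rw [Bd.coe_mul_apply, hw, Bd.coe_sub_apply]
    have a1 := ind_nonneg S x
    have a2 := ind_le_one S x
    have a3 := cE_nonneg' H hm.toIsMean S x
    have a4 := cE_le_one' H hm.toIsMean S x
    nlinarith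
  nlinarith

end GN

end Pool.Agent.LibSumset
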