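import Pool.Agent.LibSumset.Mean

set_option autoImplicit false

open Filter Topology

namespace Pool.Agent.LibSumset

variable {G : Type*} [AddCommGroup G]

/-- the coset of `H` through `z` -/
def cls (H : AddSubgroup G) (z : G) : Set G := {t | t - z ∈ H}

theorem mem_cls {H : AddSubgroup G} {z t : G} : t ∈ cls H z ↔ t - z ∈ H := Iff.rfl

theorem mem_cls_self (H : AddSubgroup G) (z : G) : z ∈ cls H z := by
  rw [mem_cls, sub_self]; exact H.zero_mem

theorem cls_eq_of_mem {H : AddSubgroup G} {z t : G} (h : t ∈ cls H z) : cls H t = cls H z := by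
  ext x
  rw [mem_cls, mem_cls]
  rw [mem_cls] at h
  constructor
  · intro hx
    have := H.add_mem hx h
    simpa using this
  · intro hx
    have := H.sub_mem hx h
    simpa using this

/-- periodicity under a subgroup -/
def Per (H : AddSubgroup G) (f : Bd G) : Prop := ∀ x y, y - x ∈ H → f.1 y = f.1 x

theorem Per.mono {H H' : AddSubgroup G} (h : H' ≤ H) {f : Bd G} (hf : Per H f) : Per H' f :=
  fun x y hxy => hf x y (h hxy)

theorem Per.mul {H : AddSubgroup G} {f g : Bd G} (hf : Per H f) (hg : Per H g) : Per H (f * g) :=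
  fun x y h => by rw [Bd.coe_mul_apply, Bd.coe_mul_apply, hf x y h, hg x y h]

theorem Per.add {H : AddSubgroup G} {f g : Bd G} (hf : Per H f) (hg : Per H g) : Per H (f + g) :=
  fun x y h => by rw [Bd.coe_add_apply, Bd.coe_add_apply, hf x y h, hg x y h]

theorem Per.sub {H : AddSubgroup G} {f g : Bd G} (hf : Per H f) (hg : Per H g) : Per H (f - g) :=
  fun x y h => by rw [Bd.coe_sub_apply, Bd.coe_sub_apply, hf x y h, hg x y h]

theorem Per.one {H : AddSubgroup G} : Per H (1 : Bd G) := fun _ _ _ => rfl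

theorem Per.T {H : AddSubgroup G} {f : Bd G} (hf : Per H f) (u : G) : Per H (T u f) :=
  fun x y h => by
    rw [T_apply, T_apply]
    exact hf _ _ (by simpa using h)

theorem per_ind_cls (H : AddSubgroup G) (z : G) : Per H (ind (cls H z)) := by
  intro x y h
  by_cases hx : x ∈ cls H z
  · have hy : y ∈ cls H z := by
      rw [mem_cls] at *
      have := H.add_mem h hx
      simpa using this
    rw [ind_mem hx, ind_mem hy]
  · have hy : y ∉ cls H z := by
      intro hy
      apply hx
      rw [mem_cls] at *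
      have := H.sub_mem hy h
      simpa using this
    rw [ind_notMem hx, ind_notMem hy]

section

variable {m : Bd G →ₗ[ℝ] ℝ} (H : AddSubgroup G) [H.FiniteIndex]

noncomputable instance : Fintype (G ⧸ H) := Fintype.ofFinite _

theorem sum_ind : ∑ q : G ⧸ H, ind (cls H q.out) = 1 := by
  ext t
  rw [Bd.coe_sum_apply, Bd.coe_one_apply]
  rw [Finset.sum_eq_single (t : G ⧸ H)]
  · refine ind_mem ?_
    rw [mem_cls]
    have : ((t : G ⧸ H).out : G ⧸ H) = (t : G ⧸ H) := Quotient.out_eq' _
    rw [QuotientAddGroup.eq] at this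
    rwa [neg_add_eq_sub] at this
  · intro q _ hq
    refine ind_notMem fun h => hq ?_
    rw [mem_cls] at h
    have : ((q.out : G) : G ⧸ H) = (t : G ⧸ H) := by
      rw [QuotientAddGroup.eq, neg_add_eq_sub]; exact h
    rw [← this]
    exact (Quotient.out_eq' q).symm
  · intro h; exact absurd (Finset.mem_univ _) h

theorem index_pos' : (0 : ℝ) < (H.index : ℝ) := by
  exact_mod_cast Nat.pos_of_ne_zero AddSubgroup.FiniteIndex.index_ne_zero

theorem card_quot : (Fintype.card (G ⧸ H) : ℝ) = (H.index : ℝ) := by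
  rw [AddSubgroup.index, Nat.card_eq_fintype_card]

theorem IsMean.ind_cls (hm : IsMean m) (z : G) : m (ind (cls H z)) = (H.index : ℝ)⁻¹ := by
  have h0 : ∀ z, m (ind (cls H z)) = m (ind (cls H 0)) := by
    intro z
    rw [← hm.inv (-z) (ind (cls H 0))]
    congr 1
    ext t
    rw [T_apply]
    by_cases h : t ∈ cls H z
    · rw [ind_mem h, ind_mem]
      rw [mem_cls] at *
      simpa [sub_eq_add_neg] using h
    · rw [ind_notMem h, ind_notMem]
      rw [mem_cls] at *
      simpa [sub_eq_add_neg] using h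
  have h1 := congrArg m (sum_ind H)
  rw [map_sum, hm.one] at h1
  simp only [h0] at h1
  rw [Finset.sum_const, Finset.card_univ, nsmul_eq_mul, card_quot] at h1
  rw [h0]
  exact eq_inv_of_mul_eq_one_right h1

variable {H}

theorem Per.eq_sum {f : Bd G} (hf : Per H f) :
    f = ∑ q : G ⧸ H, f.1 q.out • ind (cls H q.out) := by
  have h : f = f * ∑ q : G ⧸ H, ind (cls H q.out) := by rw [sum_ind, mul_one]
  conv_lhs => rw [h]
  rw [Finset.mul_sum]
  refine Finset.sum_congr rfl fun q _ => ?_
  ext t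
  rw [Bd.coe_mul_apply, Bd.coe_smul_apply]
  by_cases ht : t ∈ cls H q.out
  · rw [hf q.out t ht]
  · rw [ind_notMem ht]; simp

theorem mul_per {f : Bd G} (hf : Per H f) (φ : Bd G) :
    m (φ * f) = ∑ q : G ⧸ H, f.1 q.out * m (φ * ind (cls H q.out)) := by
  conv_lhs => rw [hf.eq_sum]
  rw [Finset.mul_sum, map_sum]
  refine Finset.sum_congr rfl fun q _ => ?_
  rw [mul_smul_comm, map_smul, smul_eq_mul]

theorem IsMean.per (hm : IsMean m) {f : Bd G} (hf : Per H f) :
    m f = (H.index : ℝ)⁻¹ * ∑ q : G ⧸ H, f.1 q.out := by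
  have h := mul_per (m := m) hf 1
  rw [one_mul] at h
  rw [h, Finset.mul_sum]
  refine Finset.sum_congr rfl fun q _ => ?_
  rw [one_mul, hm.ind_cls H, mul_comm]

variable (H)

/-- Conditional expectation on the cosets of `H`. -/
noncomputable def cE (hm : IsMean m) (φ : Bd G) : Bd G :=
  ⟨fun t => (H.index : ℝ) * m (φ * ind (cls H t)), by
    obtain ⟨C, hC⟩ := φ.2
    refine ⟨(H.index : ℝ) * C, fun t => ?_⟩
    rw [abs_mul, Nat.abs_cast]
    refine mul_le_mul_of_nonneg_left ?_ (Nat.cast_nonneg _)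
    refine hm.abs_le fun x => ?_
    rw [Bd.coe_mul_apply, abs_mul, abs_of_nonneg (ind_nonneg _ _)]
    exact (mul_le_of_le_one_right (abs_nonneg _) (ind_le_one _ _)).trans (hC x)⟩

omit [H.FiniteIndex] in
theorem cE_apply (hm : IsMean m) (φ : Bd G) (t : G) :
    (cE H hm φ).1 t = (H.index : ℝ) * m (φ * ind (cls H t)) := rfl

omit [H.FiniteIndex] in
theorem per_cE (hm : IsMean m) (φ : Bd G) : Per H (cE H hm φ) := by
  intro x y h
  rw [cE_apply, cE_apply, cls_eq_of_mem (H := H) (z := x) (t := y) h]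

theorem cE_mul_per (hm : IsMean m) (φ : Bd G) {ψ : Bd G} (hψ : Per H ψ) :
    m (cE H hm φ * ψ) = m (φ * ψ) := by
  classical
  rw [mul_per hψ, mul_per hψ]
  refine Finset.sum_congr rfl fun q _ => ?_
  congr 1
  rw [mul_comm (cE H hm φ), mul_per (per_cE H hm φ)]
  have : ∀ r : G ⧸ H, (cE H hm φ).1 r.out * m (ind (cls H q.out) * ind (cls H r.out)) =
      if r = q then m (φ * ind (cls H q.out)) else 0 := by
    intro r
    by_cases hr : r = q
    · subst hr
      rw [if_pos rfl, ind_mul_self, hm.ind_cls H, cE_apply, mul_comm (H.index : ℝ), mul_assoc,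
        mul_inv_cancel₀ (index_pos' H).ne', mul_one]
    · rw [if_neg hr]
      have : ind (cls H q.out) * ind (cls H r.out) = 0 := by
        ext t
        rw [Bd.coe_mul_apply, Bd.coe_zero_apply]
        by_cases h1 : t ∈ cls H q.out
        · by_cases h2 : t ∈ cls H r.out
          · exfalso
            apply hr
            rw [mem_cls] at h1 h2
            have e1 : ((q.out : G) : G ⧸ H) = (t : G ⧸ H) := by
              rw [QuotientAddGroup.eq, neg_add_eq_sub]; exact h1
            have e2 : ((r.out : G) : G ⧸ H) = (t : G ⧸ H) := by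
              rw [QuotientAddGroup.eq, neg_add_eq_sub]; exact h2
            have e3 : ((q.out : G) : G ⧸ H) = q := Quotient.out_eq' q
            have e4 : ((r.out : G) : G ⧸ H) = r := Quotient.out_eq' r
            rw [← e3, ← e4, e1, e2]
          · rw [ind_notMem h2, mul_zero]
        · rw [ind_notMem h1, zero_mul]
      rw [this, map_zero, mul_zero]
  simp only [this]
  rw [Finset.sum_ite_eq' Finset.univ q]
  simp

theorem cE_le (hm : IsMean m) (φ : Bd G) {C : ℝ} (h : ∀ x, φ.1 x ≤ C) (t : G) :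
    (cE H hm φ).1 t ≤ C := by
  rw [cE_apply]
  have h1 : m (φ * ind (cls H t)) ≤ m (C • ind (cls H t)) := by
    refine hm.mono fun x => ?_
    rw [Bd.coe_mul_apply, Bd.coe_smul_apply]
    exact mul_le_mul_of_nonneg_right (h x) (ind_nonneg _ _)
  rw [map_smul, hm.ind_cls H, smul_eq_mul] at h1
  calc (H.index : ℝ) * m (φ * ind (cls H t)) ≤ (H.index : ℝ) * (C * (H.index : ℝ)⁻¹) :=
        mul_le_mul_of_nonneg_left h1 (index_pos' H).le
    _ = C := by rw [mul_comm C, mul_inv_cancel_left₀ (index_pos' H).ne']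

theorem cE_ge (hm : IsMean m) (φ : Bd G) {C : ℝ} (h : ∀ x, C ≤ φ.1 x) (t : G) :
    C ≤ (cE H hm φ).1 t := by
  rw [cE_apply]
  have h1 : m (C • ind (cls H t)) ≤ m (φ * ind (cls H t)) := by
    refine hm.mono fun x => ?_
    rw [Bd.coe_mul_apply, Bd.coe_smul_apply]
    exact mul_le_mul_of_nonneg_right (h x) (ind_nonneg _ _)
  rw [map_smul, hm.ind_cls H, smul_eq_mul] at h1
  calc C = (H.index : ℝ) * (C * (H.index : ℝ)⁻¹) := by
          rw [mul_comm C, mul_inv_cancel_left₀ (index_pos' H).ne']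
    _ ≤ (H.index : ℝ) * m (φ * ind (cls H t)) := mul_le_mul_of_nonneg_left h1 (index_pos' H).le

/-- energy -/
noncomputable def en (hm : IsMean m) (φ : Bd G) : ℝ := m (cE H hm φ * cE H hm φ)

theorem en_eq (hm : IsMean m) (φ : Bd G) : en H hm φ = m (φ * cE H hm φ) :=
  cE_mul_per H hm φ (per_cE H hm φ)

omit [H.FiniteIndex] in
theorem en_nonneg (hm : IsMean m) (φ : Bd G) : 0 ≤ en H hm φ := hm.sq_nonneg _

theorem en_le_one (hm : IsMean m) (φ : Bd G) (h0 : ∀ x, 0 ≤ φ.1 x) (h1 : ∀ x, φ.1 x ≤ 1) :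
    en H hm φ ≤ 1 := by
  refine hm.le_of_le fun x => ?_
  rw [Bd.coe_mul_apply]
  have a := cE_ge H hm φ h0 x
  have b := cE_le H hm φ h1 x
  nlinarith

theorem cE_diff (hm : IsMean m) (φ : Bd G) {H H' : AddSubgroup G} [H.FiniteIndex] [H'.FiniteIndex]
    (h : H' ≤ H) :
    m ((cE H' hm φ - cE H hm φ) * (cE H' hm φ - cE H hm φ)) = en H' hm φ - en H hm φ := by
  have e : (cE H' hm φ - cE H hm φ) * (cE H' hm φ - cE H hm φ) =
      cE H' hm φ * cE H' hm φ - cE H' hm φ * cE H hm φ - cE H' hm φ * cE H hm φ +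
        cE H hm φ * cE H hm φ := by ring
  have e2 : m (cE H' hm φ * cE H hm φ) = en H hm φ := by
    rw [cE_mul_per H' hm φ ((per_cE H hm φ).mono h), en_eq]
  rw [e, map_add, map_sub, map_sub, e2]
  unfold en
  ring

theorem en_mono (hm : IsMean m) (φ : Bd G) {H H' : AddSubgroup G} [H.FiniteIndex]
    [H'.FiniteIndex] (h : H' ≤ H) : en H hm φ ≤ en H' hm φ := by
  have := hm.sq_nonneg (cE H' hm φ - cE H hm φ)
  rw [cE_diff hm φ h] at this
  linarith

/-- invariance of periodic functions under automorphisms preserving the subgroup -/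
theorem IsMean.comp_aut (hm : IsMean m) (p : G ≃+ G) (hp : H.map (p : G →+ G) = H) {f : Bd G}
    (hf : Per H f) : m (comp f p) = m f := by
  have hmem : ∀ x : G, x ∈ H → p x ∈ H := by
    intro x hx
    rw [← hp]
    exact ⟨x, hx, rfl⟩
  have hf' : Per H (comp f p) := by
    intro x y h
    rw [comp_apply, comp_apply]
    refine hf _ _ ?_
    rw [← map_sub]
    exact hmem _ h
  rw [hm.per hf', hm.per hf]
  congr 1
  refine Fintype.sum_equiv (QuotientAddGroup.congr H H p hp).toEquiv _ _ fun q => ?_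
  rw [comp_apply]
  refine hf _ _ ?_
  have h1 : ((QuotientAddGroup.congr H H p hp).toEquiv q) = ((p q.out : G) : G ⧸ H) := by
    conv_lhs => rw [← Quotient.out_eq' q]
    rfl
  rw [h1]
  have h2 : ((((p q.out : G) : G ⧸ H).out : G) : G ⧸ H) = ((p q.out : G) : G ⧸ H) :=
    Quotient.out_eq' _
  rw [QuotientAddGroup.eq, neg_add_eq_sub] at h2
  exact h2

end

end Pool.Agent.LibSumset
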