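import Pool.Agent.LibSumset.ErgLim

set_option autoImplicit false

open Filter Topology

namespace Pool.Agent.LibSumset

variable {G : Type*} [AddCommGroup G] {m : Bd G →ₗ[ℝ] ℝ}

theorem T_bound (u : G) (w : Bd G) {C : ℝ} (h : ∀ x, |w.1 x| ≤ C) (x : G) : |(T u w).1 x| ≤ C := h _

/-- The correlation function `u ↦ m (φ * T u w)`. -/
noncomputable def cor (hm : IsMean m) (φ w : Bd G) : Bd G :=
  ⟨fun u => m (φ * T u w), by
    obtain ⟨C, -, hC⟩ := Bd.bound φ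
    obtain ⟨D, -, hD⟩ := Bd.bound w
    exact ⟨C * D, fun u => hm.abs_mul_le _ _ hC (T_bound u w hD)⟩⟩

theorem cor_apply (hm : IsMean m) (φ w : Bd G) (u : G) : (cor hm φ w).1 u = m (φ * T u w) := rfl

theorem IsMean.T_mul_T (hm : IsMean m) (a b : G) (f g : Bd G) :
    m (T a f * T b g) = m (f * T (b - a) g) := by
  rw [hm.inv_mul, T_T]
  congr 3
  rw [neg_add_eq_sub]

theorem IsMean.W_neg (hm : IsMean m) (w : Bd G) (s : G) : m (w * T (-s) w) = m (w * T s w) := by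
  rw [← hm.inv_mul, mul_comm]

section

variable {V : Type*} [AddCommGroup V] [Fintype V]

theorem corr_bound (hm : IsMean m) (i : V →+ G) (φ w : Bd G) (hφ : m (φ * φ) ≤ 1) (u : G) :
    ((Fintype.card V : ℝ)⁻¹ * ∑ s : V, (m (φ * T (u + i s) w)) ^ 2) ^ 2 ≤
      (Fintype.card V : ℝ)⁻¹ * ∑ s : V, (m (w * T (i s) w)) ^ 2 := by
  have hn : (0 : ℝ) < (Fintype.card V : ℝ) := card_pos'
  set n : ℝ := (Fintype.card V : ℝ) with hndef
  set c : V → ℝ := fun s => m (φ * T (u + i s) w) with hc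
  set X : ℝ := n⁻¹ * ∑ s : V, (c s) ^ 2 with hX
  set S : ℝ := ∑ s : V, (m (w * T (i s) w)) ^ 2 with hS
  set g : Bd G := n⁻¹ • ∑ s : V, c s • T (u + i s) w with hg
  have hX0 : 0 ≤ X := mul_nonneg (inv_nonneg.2 hn.le) (Finset.sum_nonneg fun s _ => sq_nonneg _)
  have hS0 : 0 ≤ S := Finset.sum_nonneg fun s _ => sq_nonneg _
  have h1 : X = m (φ * g) := by
    rw [hg, mul_smul_comm, map_smul, Finset.mul_sum, map_sum, hX]
    simp only [smul_eq_mul]
    congr 1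
    refine Finset.sum_congr rfl fun s _ => ?_
    rw [mul_smul_comm, map_smul, smul_eq_mul, sq]
  have h2 : X ^ 2 ≤ m (g * g) := by
    rw [h1]
    refine (hm.cauchy_schwarz φ g).trans ?_
    exact mul_le_of_le_one_left (hm.sq_nonneg g) hφ
  have h3 : m (g * g) = n⁻¹ * n⁻¹ * ∑ p : V × V, (c p.1 * c p.2) * m (w * T (i (p.2 - p.1)) w) := by
    rw [hg, smul_mul_smul_comm, map_smul, smul_eq_mul, Finset.sum_mul_sum, map_sum,
      Fintype.sum_prod_type]
    congr 1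
    refine Finset.sum_congr rfl fun s _ => ?_
    rw [map_sum]
    refine Finset.sum_congr rfl fun t _ => ?_
    rw [smul_mul_smul_comm, map_smul, smul_eq_mul, hm.T_mul_T]
    congr 4
    rw [map_sub, add_sub_add_left_eq_sub]
  have h4 : (∑ p : V × V, (c p.1 * c p.2) * m (w * T (i (p.2 - p.1)) w)) ^ 2 ≤
      (∑ p : V × V, (c p.1 * c p.2) ^ 2) * ∑ p : V × V, (m (w * T (i (p.2 - p.1)) w)) ^ 2 :=
    Finset.sum_mul_sq_le_sq_mul_sq _ _ _
  have h5 : ∑ p : V × V, (c p.1 * c p.2) ^ 2 = (n * X) ^ 2 := by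
    rw [hX, mul_inv_cancel_left₀ hn.ne', Fintype.sum_prod_type, sq, Finset.sum_mul_sum]
    refine Finset.sum_congr rfl fun s _ => Finset.sum_congr rfl fun t _ => ?_
    ring
  have h6 : ∑ p : V × V, (m (w * T (i (p.2 - p.1)) w)) ^ 2 = n * S := by
    rw [Fintype.sum_prod_type]
    have : ∀ s : V, ∑ t : V, (m (w * T (i (t - s)) w)) ^ 2 = S := fun s => by
      rw [hS]
      exact Fintype.sum_equiv (Equiv.subRight s) _ _ fun t => rfl
    simp only [this]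
    rw [Finset.sum_const, Finset.card_univ, nsmul_eq_mul]
  rw [h5, h6] at h4
  have h7 : (X ^ 2) ^ 2 ≤ X ^ 2 * (n⁻¹ * S) := by
    calc (X ^ 2) ^ 2 ≤ (m (g * g)) ^ 2 := by
            exact pow_le_pow_left₀ (sq_nonneg X) h2 2
      _ = (n⁻¹ * n⁻¹) ^ 2 * (∑ p : V × V, (c p.1 * c p.2) * m (w * T (i (p.2 - p.1)) w)) ^ 2 := by
            rw [h3]; ring
      _ ≤ (n⁻¹ * n⁻¹) ^ 2 * ((n * X) ^ 2 * (n * S)) :=
            mul_le_mul_of_nonneg_left h4 (sq_nonneg _)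
      _ = X ^ 2 * (n⁻¹ * S) := by
            field_simp
  rcases hX0.eq_or_lt with h0 | h0
  · rw [← h0]; simp only [ne_eq, OfNat.ofNat_ne_zero, not_false_eq_true, zero_pow]
    positivity
  · have : 0 < X ^ 2 := by positivity
    rw [sq (X ^ 2)] at h7
    exact le_of_mul_le_mul_left h7 this

theorem cor_sq_le (hm : IsMean m) (i : V →+ G) (φ w : Bd G) (hφ : m (φ * φ) ≤ 1) {η : ℝ}
    (hη0 : 0 ≤ η) (hη : (Fintype.card V : ℝ)⁻¹ * ∑ s : V, (m (w * T (i s) w)) ^ 2 ≤ η ^ 2) :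
    m (cor hm φ w * cor hm φ w) ≤ η := by
  rw [← hm.map_avg i]
  refine hm.le_of_le fun u => ?_
  rw [avg_apply]
  have h1 := (corr_bound hm i φ w hφ u).trans hη
  have h2 : (Fintype.card V : ℝ)⁻¹ * ∑ s : V, (cor hm φ w * cor hm φ w).1 (u + i s) =
      (Fintype.card V : ℝ)⁻¹ * ∑ s : V, (m (φ * T (u + i s) w)) ^ 2 := by
    congr 1
    refine Finset.sum_congr rfl fun s _ => ?_
    rw [Bd.coe_mul_apply, cor_apply, sq]
  rw [h2]
  exact le_of_sq_le_sq h1 hη0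

end

end Pool.Agent.LibSumset
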