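import Pool.Agent.LibSumset.Ergodic

set_option autoImplicit false

open Filter Topology

namespace Pool.Agent.LibSumset

variable {G : Type*} [AddCommGroup G]

theorem exists_ulim {ι : Type*} (U : Ultrafilter ι) (u : ι → ℝ) (C : ℝ) (h : ∀ n, |u n| ≤ C) :
    ∃ L, Tendsto u U (𝓝 L) := by
  obtain ⟨L, -, hL⟩ := (isCompact_Icc (a := -C) (b := C)).ultrafilter_le_nhds (U.map u) (by
    rw [Filter.le_principal_iff]
    exact Filter.mem_map.2 (Filter.univ_mem' fun n => abs_le.1 (h n)))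
  exact ⟨L, hL⟩

omit [AddCommGroup G] in
theorem Bd.bound (f : Bd G) : ∃ C : ℝ, 0 < C ∧ ∀ x, |f.1 x| ≤ C := by
  obtain ⟨C, hC⟩ := f.2
  exact ⟨|C| + 1, by positivity, fun x => (hC x).trans (by linarith [le_abs_self C])⟩

theorem IsMean.abs_mul_le {m : Bd G →ₗ[ℝ] ℝ} (hm : IsMean m) (f g : Bd G) {C D : ℝ}
    (hf : ∀ x, |f.1 x| ≤ C) (hg : ∀ x, |g.1 x| ≤ D) : |m (f * g)| ≤ C * D := by
  refine hm.abs_le fun x => ?_
  rw [Bd.coe_mul_apply, abs_mul]
  exact mul_le_mul (hf x) (hg x) (abs_nonneg _) ((abs_nonneg _).trans (hf x))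

theorem avg_abs_le {V : Type*} [AddCommGroup V] [Fintype V] (i : V →+ G) (φ : Bd G) {C : ℝ}
    (h : ∀ x, |φ.1 x| ≤ C) (x : G) : |(avg i φ).1 x| ≤ C := by
  rw [avg_apply, abs_mul, abs_inv, Nat.abs_cast]
  have h1 : |∑ s : V, φ.1 (x + i s)| ≤ ∑ s : V, C :=
    (Finset.abs_sum_le_sum_abs _ _).trans (Finset.sum_le_sum fun s _ => h _)
  rw [Finset.sum_const, Finset.card_univ, nsmul_eq_mul] at h1
  rw [inv_mul_le_iff₀ card_pos']
  exact h1

theorem avg_sub {V : Type*} [AddCommGroup V] [Fintype V] (i : V →+ G) (φ ψ : Bd G) :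
    avg i (φ - ψ) = avg i φ - avg i ψ := by
  unfold avg
  simp only [map_sub, Finset.sum_sub_distrib, smul_sub]

theorem avg_nonneg {V : Type*} [AddCommGroup V] [Fintype V] (i : V →+ G) (φ : Bd G)
    (h : ∀ x, 0 ≤ φ.1 x) (x : G) : 0 ≤ (avg i φ).1 x := by
  rw [avg_apply]
  exact mul_nonneg (inv_nonneg.2 card_pos'.le) (Finset.sum_nonneg fun s _ => h _)

theorem avg_le_one {V : Type*} [AddCommGroup V] [Fintype V] (i : V →+ G) (φ : Bd G)
    (h0 : ∀ x, 0 ≤ φ.1 x) (h : ∀ x, φ.1 x ≤ 1) (x : G) : (avg i φ).1 x ≤ 1 := by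
  have := avg_abs_le i φ (C := 1) (fun y => abs_le.2 ⟨by linarith [h0 y], h y⟩) x
  exact (le_abs_self _).trans this

section

variable {V : ℕ → Type*} [∀ M, AddCommGroup (V M)] [∀ M, Fintype (V M)] (i : ∀ M, V M →+ G)

theorem erg_lim_aux {m : Bd G →ₗ[ℝ] ℝ} (hm : IsErg m) (U : Ultrafilter ℕ)
    (hU : (U : Filter ℕ) ≤ atTop)
    (hex : ∀ g, ∀ᶠ M in atTop, g ∈ Set.range (i M)) (φ : Bd G) (h0 : ∀ x, 0 ≤ φ.1 x)
    (h1 : ∀ x, φ.1 x ≤ 1) (ψ : Bd G) :
    Tendsto (fun M => m (avg (i M) φ * ψ)) U (𝓝 (m φ * m ψ)) := by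
  have hM : IsMean m := hm.toIsMean
  have hb : ∀ ψ : Bd G, ∃ L, Tendsto (fun M => m (avg (i M) φ * ψ)) U (𝓝 L) := by
    intro ψ
    obtain ⟨D, -, hD⟩ := Bd.bound ψ
    refine exists_ulim U _ (1 * D) fun M => hM.abs_mul_le _ _ (fun x => ?_) hD
    exact avg_abs_le _ _ (fun y => abs_le.2 ⟨by linarith [h0 y], h1 y⟩) x
  choose l hl using hb
  let L : Bd G →ₗ[ℝ] ℝ :=
    { toFun := l
      map_add' := fun f g => tendsto_nhds_unique (hl (f + g)) (by
        have := (hl f).add (hl g)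
        refine this.congr fun M => ?_
        rw [mul_add, map_add])
      map_smul' := fun c f => tendsto_nhds_unique (hl (c • f)) (by
        have := (hl f).const_mul c
        refine this.congr fun M => ?_
        rw [mul_smul_comm, map_smul, smul_eq_mul]) }
  have hL1 : L 1 = m φ := by
    refine tendsto_nhds_unique (hl 1) (tendsto_const_nhds.congr fun M => ?_)
    rw [mul_one, hM.map_avg]
  have key := hm.erg L (fun f hf => ⟨?_, ?_⟩) (fun g f => ?_) ψ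
  · rw [hL1] at key
    rw [← key]
    exact hl ψ
  · refine ge_of_tendsto' (hl f) fun M => hM.nonneg _ fun x => ?_
    exact mul_nonneg (avg_nonneg _ _ h0 x) (hf x)
  · refine le_of_tendsto' (hl f) fun M => hM.mono fun x => ?_
    rw [Bd.coe_mul_apply]
    exact mul_le_of_le_one_left (hf x) (avg_le_one _ _ h0 h1 x)
  · refine tendsto_nhds_unique (hl _) ((hl f).congr' ?_)
    filter_upwards [hU (hex (-g))] with M hM'
    obtain ⟨s, hs⟩ := hM'
    have h2 := hM.inv_mul (-g) (avg (i M) φ) f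
    rw [neg_neg] at h2
    rw [← h2, ← hs, T_avg]

theorem erg_lim {m : Bd G →ₗ[ℝ] ℝ} (hm : IsErg m) (U : Ultrafilter ℕ)
    (hU : (U : Filter ℕ) ≤ atTop)
    (hex : ∀ g, ∀ᶠ M in atTop, g ∈ Set.range (i M)) (φ ψ : Bd G) :
    Tendsto (fun M => m (avg (i M) φ * ψ)) U (𝓝 (m φ * m ψ)) := by
  have hM : IsMean m := hm.toIsMean
  obtain ⟨C, hC0, hC⟩ := Bd.bound φ
  set φ' : Bd G := (2 * C)⁻¹ • (φ + C • 1) with hφ'
  have h2C : (2 * C) ≠ 0 := by positivity
  have hφ : φ = (2 * C) • φ' - C • 1 := by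
    rw [hφ', smul_smul, mul_inv_cancel₀ h2C, one_smul]; simp
  have key := erg_lim_aux i hm U hU hex φ' (fun x => by
    simp only [hφ', Bd.coe_smul_apply, Bd.coe_add_apply, Bd.coe_one_apply, mul_one]
    have := (abs_le.1 (hC x)).1
    exact mul_nonneg (by positivity) (by linarith)) (fun x => by
    simp only [hφ', Bd.coe_smul_apply, Bd.coe_add_apply, Bd.coe_one_apply, mul_one]
    have := (abs_le.1 (hC x)).2
    rw [inv_mul_le_iff₀ (by positivity)]; linarith) ψ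
  have h3 := (key.const_mul (2 * C)).sub (tendsto_const_nhds (x := C * m ψ))
  have e1 : 2 * C * (m φ' * m ψ) - C * m ψ = m φ * m ψ := by
    conv_rhs => rw [hφ, map_sub, map_smul, hM.const, smul_eq_mul]
    ring
  rw [e1] at h3
  refine h3.congr fun M => ?_
  conv_rhs => rw [hφ]
  have : avg (i M) ((2 * C) • φ' - C • 1) = (2 * C) • avg (i M) φ' - C • 1 := by
    rw [avg_sub, avg_smul _ (2 * C) φ', avg_smul _ C 1, avg_one]
  rw [this, sub_mul, smul_mul_assoc, smul_mul_assoc, one_mul, map_sub, map_smul, map_smul]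
  simp only [smul_eq_mul]

theorem erg_lim_sq {m : Bd G →ₗ[ℝ] ℝ} (hm : IsErg m) (U : Ultrafilter ℕ)
    (hU : (U : Filter ℕ) ≤ atTop)
    (hex : ∀ g, ∀ᶠ M in atTop, g ∈ Set.range (i M)) (φ : Bd G) :
    Tendsto (fun M => m (avg (i M) φ * avg (i M) φ)) U (𝓝 (m φ * m φ)) := by
  refine (erg_lim i hm U hU hex φ φ).congr fun M => ?_
  rw [hm.toIsMean.avg_avg_mul]

end

end Pool.Agent.LibSumset
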