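import Pool.Agent.LibSumset.Mean

set_option autoImplicit false

open Filter Topology

namespace Pool.Agent.LibSumset

variable {G : Type*} [AddCommGroup G]

/-- An ergodic mean: every invariant positive functional below it is a multiple of it. -/
structure IsErg (m : Bd G →ₗ[ℝ] ℝ) : Prop extends IsMean m where
  erg : ∀ l : Bd G →ₗ[ℝ] ℝ, (∀ f : Bd G, (∀ x, 0 ≤ f.1 x) → 0 ≤ l f ∧ l f ≤ m f) →
    (∀ (g : G) (f : Bd G), l (T g f) = l f) → ∀ f, l f = l 1 * m f

/-- The set of invariant means, as plain functions. -/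
def meanSet (G : Type*) [AddCommGroup G] : Set (Bd G → ℝ) :=
  {μ | (∀ f g, μ (f + g) = μ f + μ g) ∧ (∀ (c : ℝ) f, μ (c • f) = c * μ f) ∧
    (∀ f : Bd G, (∀ x, 0 ≤ f.1 x) → 0 ≤ μ f) ∧ μ 1 = 1 ∧ ∀ (g : G) f, μ (T g f) = μ f}

/-- the linear map of an element of `meanSet` -/
def toLin (μ : Bd G → ℝ) (h : μ ∈ meanSet G) : Bd G →ₗ[ℝ] ℝ where
  toFun := μ
  map_add' := h.1
  map_smul' := h.2.1

theorem toLin_isMean (μ : Bd G → ℝ) (h : μ ∈ meanSet G) : IsMean (toLin μ h) :=
  ⟨h.2.2.1, h.2.2.2.1, h.2.2.2.2⟩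

theorem mem_meanSet {m : Bd G →ₗ[ℝ] ℝ} (hm : IsMean m) : (m : Bd G → ℝ) ∈ meanSet G :=
  ⟨map_add m, fun c f => by rw [map_smul]; rfl, hm.nonneg, hm.one, hm.inv⟩

theorem isClosed_meanSet : IsClosed (meanSet G) := by
  have : meanSet G = (⋂ f : Bd G, ⋂ g : Bd G, {μ : Bd G → ℝ | μ (f + g) = μ f + μ g}) ∩
      ((⋂ c : ℝ, ⋂ f : Bd G, {μ : Bd G → ℝ | μ (c • f) = c * μ f}) ∩
      ((⋂ f : Bd G, ⋂ _ : (∀ x, 0 ≤ f.1 x), {μ : Bd G → ℝ | 0 ≤ μ f}) ∩
      ({μ : Bd G → ℝ | μ 1 = 1} ∩ ⋂ g : G, ⋂ f : Bd G, {μ : Bd G → ℝ | μ (T g f) = μ f}))) := by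
    ext μ
    simp only [meanSet, Set.mem_inter_iff, Set.mem_iInter, Set.mem_ofPred_eq]
  rw [this]
  refine IsClosed.inter ?_ (IsClosed.inter ?_ (IsClosed.inter ?_ (IsClosed.inter ?_ ?_)))
  · refine isClosed_iInter fun f => isClosed_iInter fun g => ?_
    exact isClosed_eq (by fun_prop) (by fun_prop)
  · refine isClosed_iInter fun f => isClosed_iInter fun g => ?_
    exact isClosed_eq (by fun_prop) (by fun_prop)
  · refine isClosed_iInter fun f => isClosed_iInter fun g => ?_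
    exact isClosed_le continuous_const (continuous_apply _)
  · exact isClosed_eq (continuous_apply _) continuous_const
  · refine isClosed_iInter fun f => isClosed_iInter fun g => ?_
    exact isClosed_eq (continuous_apply _) (continuous_apply _)

theorem isCompact_meanSet : IsCompact (meanSet G) := by
  have hC : ∀ f : Bd G, ∃ C : ℝ, ∀ x, |f.1 x| ≤ C := fun f => f.2
  choose C hC using hC
  refine IsCompact.of_isClosed_subset
    (isCompact_univ_pi (s := fun f : Bd G => Set.Icc (-(C f)) (C f)) fun f => isCompact_Icc)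
    isClosed_meanSet ?_
  intro μ hμ f _
  have := (toLin_isMean μ hμ).abs_le (hC f)
  exact abs_le.1 this

theorem convex_meanSet : Convex ℝ (meanSet G) := by
  rintro μ ⟨h1, h2, h3, h4, h5⟩ ν ⟨k1, k2, k3, k4, k5⟩ a b ha hb hab
  refine ⟨?_, ?_, ?_, ?_, ?_⟩
  · intro f g
    simp only [Pi.add_apply, Pi.smul_apply, smul_eq_mul, h1, k1]; ring
  · intro c f
    simp only [Pi.add_apply, Pi.smul_apply, smul_eq_mul, h2, k2]; ring
  · intro f hf
    simp only [Pi.add_apply, Pi.smul_apply, smul_eq_mul]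
    exact add_nonneg (mul_nonneg ha (h3 f hf)) (mul_nonneg hb (k3 f hf))
  · simp only [Pi.add_apply, Pi.smul_apply, smul_eq_mul, h4, k4, mul_one]; exact hab
  · intro g f
    simp only [Pi.add_apply, Pi.smul_apply, smul_eq_mul, h5, k5]

omit [AddCommGroup G] in
theorem zero_of_le {l : Bd G →ₗ[ℝ] ℝ} (h : ∀ f : Bd G, (∀ x, 0 ≤ f.1 x) → 0 ≤ l f)
    (h1 : l 1 = 0) (f : Bd G) : l f = 0 := by
  obtain ⟨C, hC⟩ := f.2
  have a := h (C • 1 - f) (fun x => by simp only [Bd.coe_sub_apply, Bd.coe_smul_apply, Bd.coe_one_apply, mul_one, sub_nonneg]; exact (abs_le.1 (hC x)).2)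
  have b := h (C • 1 + f) (fun x => by simp only [Bd.coe_add_apply, Bd.coe_smul_apply, Bd.coe_one_apply, mul_one]; linarith [(abs_le.1 (hC x)).1])
  rw [map_sub, map_smul, h1, smul_zero] at a
  rw [map_add, map_smul, h1, smul_zero] at b
  linarith

theorem isErg_of_extreme {μ : Bd G → ℝ} (h : μ ∈ (meanSet G).extremePoints ℝ) :
    IsErg (toLin μ h.1) := by
  refine ⟨toLin_isMean μ h.1, ?_⟩
  intro l hl hinv f
  have hm := toLin_isMean μ h.1
  set m := toLin μ h.1 with hmdef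
  set c := l 1 with hc
  have hc0 : 0 ≤ c := (hl 1 (fun x => by simp)).1
  have hc1 : c ≤ 1 := by
    have := (hl 1 (fun x => by simp)).2
    rwa [hm.one] at this
  rcases hc0.eq_or_lt with h0 | h0
  · rw [zero_of_le (fun f hf => (hl f hf).1) h0.symm, ← h0, zero_mul]
  rcases hc1.eq_or_lt with h1 | h1
  · have := zero_of_le (l := m - l) (fun f hf => by
      simp only [LinearMap.sub_apply]; linarith [(hl f hf).2]) (by
      simp only [LinearMap.sub_apply, hm.one]; linarith) f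
    simp only [LinearMap.sub_apply] at this
    rw [h1]; linarith
  have hm1 : IsMean (c⁻¹ • l) := by
    refine ⟨fun f hf => ?_, ?_, fun g f => ?_⟩
    · simp only [LinearMap.smul_apply, smul_eq_mul]
      exact mul_nonneg (inv_nonneg.2 hc0) (hl f hf).1
    · simp only [LinearMap.smul_apply, smul_eq_mul]
      rw [← hc]; exact inv_mul_cancel₀ h0.ne'
    · simp only [LinearMap.smul_apply, smul_eq_mul, hinv]
  have h1c : 0 < 1 - c := by linarith
  have hm2 : IsMean ((1 - c)⁻¹ • (m - l)) := by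
    refine ⟨fun f hf => ?_, ?_, fun g f => ?_⟩
    · simp only [LinearMap.smul_apply, smul_eq_mul, LinearMap.sub_apply]
      exact mul_nonneg (inv_nonneg.2 h1c.le) (by linarith [(hl f hf).2])
    · simp only [LinearMap.smul_apply, smul_eq_mul, LinearMap.sub_apply]
      rw [← hc, hm.one]; exact inv_mul_cancel₀ h1c.ne'
    · simp only [LinearMap.smul_apply, smul_eq_mul, LinearMap.sub_apply, hinv, hm.inv]
  have key := (mem_extremePoints.1 h).2 _ (mem_meanSet hm1) _ (mem_meanSet hm2) (by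
    refine ⟨c, 1 - c, h0, h1c, by ring, ?_⟩
    funext f
    simp only [Pi.add_apply, Pi.smul_apply, smul_eq_mul, LinearMap.smul_apply,
      LinearMap.sub_apply]
    rw [mul_inv_cancel_left₀ h0.ne', mul_inv_cancel_left₀ h1c.ne']
    have : m f = μ f := rfl
    rw [← this]; ring)
  have k1 := congrFun key.1 f
  simp only [LinearMap.smul_apply, smul_eq_mul] at k1
  have : m f = μ f := rfl
  rw [this, ← k1, mul_inv_cancel_left₀ h0.ne']

/-- Among the invariant means one can find an ergodic one which does not increase a given value. -/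
theorem exists_isErg {m₀ : Bd G →ₗ[ℝ] ℝ} (hm₀ : IsMean m₀) (k : Bd G) :
    ∃ m : Bd G →ₗ[ℝ] ℝ, IsErg m ∧ m k ≤ m₀ k := by
  obtain ⟨μ₁, hμ₁, hmin⟩ := isCompact_meanSet.exists_isMinOn ⟨_, mem_meanSet hm₀⟩
    (continuous_apply k).continuousOn
  set F : Set (Bd G → ℝ) := {μ ∈ meanSet G | μ k ≤ μ₁ k} with hF
  have hFc : IsCompact F := by
    refine IsCompact.of_isClosed_subset isCompact_meanSet ?_ (fun μ h => h.1)
    exact isClosed_meanSet.inter (isClosed_le (continuous_apply k) continuous_const)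
  have hFe : IsExtreme ℝ (meanSet G) F := by
    refine ⟨fun μ h => h.1, ?_⟩
    intro x hx y hy z hz hseg
    refine ⟨hx, ?_⟩
    obtain ⟨a, b, ha, hb, hab, rfl⟩ := hseg
    have hz2 := hz.2
    simp only [Pi.add_apply, Pi.smul_apply, smul_eq_mul] at hz2
    have hy1 : μ₁ k ≤ y k := hmin hy
    have hx1 : μ₁ k ≤ x k := hmin hx
    by_contra hcon
    push Not at hcon
    have : a * μ₁ k < a * x k := mul_lt_mul_of_pos_left hcon ha
    have h2 : b * μ₁ k ≤ b * y k := mul_le_mul_of_nonneg_left hy1 hb.le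
    have h3 : μ₁ k = a * μ₁ k + b * μ₁ k := by rw [← add_mul, hab, one_mul]
    linarith
  obtain ⟨μ, hμ⟩ := hFc.extremePoints_nonempty ⟨μ₁, hμ₁, le_rfl⟩
  have hμe := hFe.extremePoints_subset_extremePoints hμ
  refine ⟨toLin μ hμe.1, isErg_of_extreme hμe, ?_⟩
  have h1 : μ k ≤ μ₁ k := hμ.1.2
  exact h1.trans (hmin (mem_meanSet hm₀))

section avg

variable {V : Type*} [AddCommGroup V] [Fintype V]

/-- Average over the translates by the image of a finite group. -/
noncomputable def avg (i : V →+ G) (φ : Bd G) : Bd G :=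
  (Fintype.card V : ℝ)⁻¹ • ∑ s : V, T (i s) φ

theorem card_pos' : (0 : ℝ) < (Fintype.card V : ℝ) := by
  have : 0 < Fintype.card V := Fintype.card_pos
  exact_mod_cast this

theorem avg_T (i : V →+ G) (φ : Bd G) (s₀ : V) : avg i (T (i s₀) φ) = avg i φ := by
  unfold avg
  congr 1
  refine Fintype.sum_equiv (Equiv.addRight s₀) _ _ fun s => ?_
  rw [T_T]; simp

theorem T_avg (i : V →+ G) (φ : Bd G) (s₀ : V) : T (i s₀) (avg i φ) = avg i φ := by
  unfold avg
  rw [map_smul, map_sum]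
  congr 1
  refine Fintype.sum_equiv (Equiv.addLeft s₀) _ _ fun s => ?_
  rw [T_T]; simp

theorem avg_add (i : V →+ G) (φ ψ : Bd G) : avg i (φ + ψ) = avg i φ + avg i ψ := by
  unfold avg
  simp only [map_add, Finset.sum_add_distrib, smul_add]

theorem avg_smul (i : V →+ G) (c : ℝ) (φ : Bd G) : avg i (c • φ) = c • avg i φ := by
  unfold avg
  simp only [map_smul, ← Finset.smul_sum]
  rw [smul_comm]

theorem avg_one (i : V →+ G) : avg i (1 : Bd G) = 1 := by
  unfold avg
  simp only [map_one, Finset.sum_const, Finset.card_univ]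
  rw [← Nat.cast_smul_eq_nsmul ℝ, smul_smul, inv_mul_cancel₀ card_pos'.ne', one_smul]

theorem avg_apply (i : V →+ G) (φ : Bd G) (x : G) :
    (avg i φ).1 x = (Fintype.card V : ℝ)⁻¹ * ∑ s : V, φ.1 (x + i s) := by
  unfold avg
  rw [Bd.coe_smul_apply, Bd.coe_sum_apply]
  simp

variable {m : Bd G →ₗ[ℝ] ℝ}

theorem IsMean.avg_mul (hm : IsMean m) (i : V →+ G) (φ ψ : Bd G) :
    m (avg i φ * ψ) = m (φ * avg i ψ) := by
  unfold avg
  rw [smul_mul_assoc, mul_smul_comm, map_smul, map_smul, Finset.sum_mul, Finset.mul_sum, map_sum,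
    map_sum]
  congr 1
  refine Fintype.sum_equiv (Equiv.neg V) _ _ fun s => ?_
  rw [hm.inv_mul]; simp

theorem IsMean.map_avg (hm : IsMean m) (i : V →+ G) (φ : Bd G) : m (avg i φ) = m φ := by
  have := hm.avg_mul i φ 1
  rwa [mul_one, avg_one, mul_one] at this

theorem avg_avg (i : V →+ G) (φ : Bd G) : avg i (avg i φ) = avg i φ := by
  conv_lhs => unfold avg
  have : ∀ s : V, T (i s) ((Fintype.card V : ℝ)⁻¹ • ∑ s : V, T (i s) φ) = avg i φ := fun s => by
    have := T_avg i φ s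
    unfold avg at this ⊢
    exact this
  simp only [this]
  rw [Finset.sum_const, Finset.card_univ, ← Nat.cast_smul_eq_nsmul ℝ, smul_smul,
    inv_mul_cancel₀ card_pos'.ne', one_smul]

theorem IsMean.avg_avg_mul (hm : IsMean m) (i : V →+ G) (φ : Bd G) :
    m (avg i φ * avg i φ) = m (avg i φ * φ) := by
  rw [hm.avg_mul i φ (avg i φ), avg_avg, mul_comm]

/-- contraction -/
theorem IsMean.avg_sq_le (hm : IsMean m) (i : V →+ G) (φ : Bd G) :
    m (avg i φ * avg i φ) ≤ m (φ * φ) := by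
  have h1 := hm.avg_avg_mul i φ
  have h2 := hm.sq_nonneg (φ - avg i φ)
  have h3 : (φ - avg i φ) * (φ - avg i φ) = φ * φ - (avg i φ * φ) - (avg i φ * φ) + avg i φ * avg i φ := by
    ring
  rw [h3, map_add, map_sub, map_sub] at h2
  linarith

end avg

end Pool.Agent.LibSumset
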