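import Pool.Agent.LibSumset.Key

set_option autoImplicit false

open Filter Topology

namespace Pool.Agent.LibSumset

section gen

variable {G : Type*} [AddCommGroup G]

open Classical in
theorem sum_shift_diff (S : Finset G) (g : G) (φ : Bd G) {C : ℝ} (hC : ∀ x, |φ.1 x| ≤ C) :
    |∑ u ∈ S, φ.1 (u + g) - ∑ u ∈ S, φ.1 u| ≤ 2 * C * ((S.filter fun v => v - g ∉ S).card : ℝ) := by
  set S' : Finset G := S.image (fun u => u + g) with hS'
  have h1 : ∑ u ∈ S, φ.1 (u + g) = ∑ v ∈ S', φ.1 v := by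
    rw [hS', Finset.sum_image]
    intro x _ y _ h
    exact add_right_cancel h
  have hcard : S'.card = S.card := by
    rw [hS', Finset.card_image_of_injective]
    exact add_left_injective g
  have h2 : S \ S' = S.filter fun v => v - g ∉ S := by
    ext v
    simp only [Finset.mem_sdiff, hS', Finset.mem_image, Finset.mem_filter, not_exists, not_and]
    constructor
    · rintro ⟨h, h'⟩
      exact ⟨h, fun h3 => h' _ h3 (sub_add_cancel v g)⟩
    · rintro ⟨h, h'⟩
      refine ⟨h, fun x hx hxv => h' ?_⟩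
      rw [← hxv, add_sub_cancel_right]; exact hx
  rw [h1, ← Finset.sum_sdiff_sub_sum_sdiff]
  have hb : ∀ X : Finset G, |∑ x ∈ X, φ.1 x| ≤ C * (X.card : ℝ) := by
    intro X
    refine (Finset.abs_sum_le_sum_abs _ _).trans ?_
    refine (Finset.sum_le_sum fun x _ => hC x).trans (le_of_eq ?_)
    rw [Finset.sum_const, nsmul_eq_mul, mul_comm]
  have h3 : (S' \ S).card = (S \ S').card := Finset.card_sdiff_comm hcard
  refine (abs_sub _ _).trans ?_
  have a := hb (S' \ S)
  have b := hb (S \ S')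
  rw [h3] at a
  rw [← h2]
  linarith

open Classical in
/-- Existence of the limiting functional of a sequence of finite sets. -/
theorem exists_functional (U : Ultrafilter ℕ) (Φ S : ℕ → Finset G)
    (hsub : ∀ N, S N ⊆ Φ N)
    (hinv : ∀ g : G, Tendsto (fun N => (((S N).filter fun v => v - g ∉ S N).card : ℝ) / (Φ N).card)
      U (𝓝 0)) :
    ∃ l : Bd G →ₗ[ℝ] ℝ, (∀ f : Bd G, (∀ x, 0 ≤ f.1 x) → 0 ≤ l f) ∧ (∀ (g : G) (f : Bd G),
      l (T g f) = l f) ∧
      ∀ f : Bd G, Tendsto (fun N => (∑ u ∈ S N, f.1 u) / ((Φ N).card : ℝ)) U (𝓝 (l f)) := by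
  have hb : ∀ f : Bd G, ∃ L, Tendsto (fun N => (∑ u ∈ S N, f.1 u) / ((Φ N).card : ℝ)) U (𝓝 L) := by
    intro f
    obtain ⟨C, hC0, hC⟩ := Bd.bound f
    refine exists_ulim U _ C fun N => ?_
    rw [abs_div, Nat.abs_cast]
    refine div_le_of_le_mul₀ (Nat.cast_nonneg _) hC0.le ?_
    refine (Finset.abs_sum_le_sum_abs _ _).trans ?_
    refine (Finset.sum_le_sum fun x _ => hC x).trans ?_
    rw [Finset.sum_const, nsmul_eq_mul, mul_comm]
    refine mul_le_mul_of_nonneg_left ?_ hC0.le
    exact_mod_cast Finset.card_le_card (hsub N)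
  choose l hl using hb
  let L : Bd G →ₗ[ℝ] ℝ :=
    { toFun := l
      map_add' := fun f g => tendsto_nhds_unique (hl (f + g)) (by
        refine ((hl f).add (hl g)).congr fun M => ?_
        simp only [Bd.coe_add_apply, Finset.sum_add_distrib, add_div])
      map_smul' := fun c f => tendsto_nhds_unique (hl (c • f)) (by
        refine ((hl f).const_mul c).congr fun M => ?_
        simp only [Bd.coe_smul_apply, ← Finset.mul_sum, mul_div_assoc]) }
  refine ⟨L, fun f hf => ?_, fun g f => ?_, fun f => hl f⟩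
  · refine ge_of_tendsto' (hl f) fun N => ?_
    exact div_nonneg (Finset.sum_nonneg fun x _ => hf x) (Nat.cast_nonneg _)
  · obtain ⟨C, hC0, hC⟩ := Bd.bound f
    have h1 := (hl (T g f)).sub (hl f)
    have h2 : Tendsto (fun N => (∑ u ∈ S N, (T g f).1 u) / ((Φ N).card : ℝ) -
        (∑ u ∈ S N, f.1 u) / ((Φ N).card : ℝ)) U (𝓝 0) := by
      have h3 := (hinv g).const_mul (2 * C)
      rw [mul_zero] at h3
      refine squeeze_zero_norm (fun N => ?_) h3
      rw [Real.norm_eq_abs, ← sub_div, abs_div, Nat.abs_cast, ← mul_div_assoc]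
      exact div_le_div_of_nonneg_right (sum_shift_diff (S N) g f hC) (Nat.cast_nonneg _)
    have h4 := tendsto_nhds_unique h1 h2
    exact sub_eq_zero.1 h4

end gen

/-- from a positive invariant functional: the inequality for unnormalised functionals -/
theorem key2_fun {E : Set G7} (hE : NoB E) {l : Bd G7 →ₗ[ℝ] ℝ}
    (hl : ∀ f : Bd G7, (∀ x, 0 ≤ f.1 x) → 0 ≤ l f) (hinv : ∀ (g : G7) (f : Bd G7), l (T g f) = l f) :
    l 1 ≤ l (ind (SS E 0) + ind (SS E 1)) := by
  have h0 : 0 ≤ l 1 := hl 1 fun x => by simp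
  rcases h0.eq_or_lt with h | h
  · rw [← h]
    exact hl _ fun t => add_nonneg (ind_nonneg _ _) (ind_nonneg _ _)
  · have hm : IsMean ((l 1)⁻¹ • l) := by
      refine ⟨fun f hf => ?_, ?_, fun g f => ?_⟩
      · rw [LinearMap.smul_apply, smul_eq_mul]; exact mul_nonneg (inv_nonneg.2 h0) (hl f hf)
      · rw [LinearMap.smul_apply, smul_eq_mul]; exact inv_mul_cancel₀ h.ne'
      · rw [LinearMap.smul_apply, LinearMap.smul_apply, hinv]
    have := key2 hE hm
    rw [LinearMap.smul_apply, smul_eq_mul, ← div_eq_inv_mul, le_div_iff₀ h, one_mul] at this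
    exact this

theorem key3_fun {E : Set G7} (hE : NoB E) {l : Bd G7 →ₗ[ℝ] ℝ}
    (hl : ∀ f : Bd G7, (∀ x, 0 ≤ f.1 x) → 0 ≤ l f) (hinv : ∀ (g : G7) (f : Bd G7), l (T g f) = l f) :
    2 * l 1 ≤ l (ind (SS E 0) + ind (SS E 1) + ind (SS E 2)) := by
  have h0 : 0 ≤ l 1 := hl 1 fun x => by simp
  rcases h0.eq_or_lt with h | h
  · rw [← h, mul_zero]
    exact hl _ fun t => add_nonneg (add_nonneg (ind_nonneg _ _) (ind_nonneg _ _)) (ind_nonneg _ _)
  · have hm : IsMean ((l 1)⁻¹ • l) := by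
      refine ⟨fun f hf => ?_, ?_, fun g f => ?_⟩
      · rw [LinearMap.smul_apply, smul_eq_mul]; exact mul_nonneg (inv_nonneg.2 h0) (hl f hf)
      · rw [LinearMap.smul_apply, smul_eq_mul]; exact inv_mul_cancel₀ h.ne'
      · rw [LinearMap.smul_apply, LinearMap.smul_apply, hinv]
    have := key3 hE hm
    rw [LinearMap.smul_apply, smul_eq_mul, ← div_eq_inv_mul, le_div_iff₀ h] at this
    exact this

open Classical in
/-- full doubling orbits -/
noncomputable def P3 (Φ : Finset G7) : Finset G7 := Φ.filter fun u => dbl u ∈ Φ ∧ dbl (dbl u) ∈ Φ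

open Classical in
/-- two-element pieces -/
noncomputable def R2 (Φ : Finset G7) : Finset G7 := Φ.filter fun u => dbl u ∈ Φ ∧ dbl (dbl u) ∉ Φ

open Classical in
theorem count (Φ : Finset G7) (E : Set G7) :
    (∑ u ∈ P3 Φ, (ind (SS E 0) + ind (SS E 1) + ind (SS E 2)).1 u) +
      3 * (∑ u ∈ R2 Φ, (ind (SS E 0) + ind (SS E 1)).1 u) ≤
      3 * ((E ∩ (Φ : Set G7)).ncard : ℝ) := by
  have hcE : (E ∩ (Φ : Set G7)).ncard = (Φ.filter fun u => u ∈ E).card := by
    rw [← Set.ncard_coe_finset]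
    congr 1
    ext v
    simp only [Set.mem_inter_iff, Finset.mem_coe, Finset.coe_filter, Set.mem_ofPred_eq]
    exact and_comm
  rw [hcE]
  have hsum : ∀ (S : Finset G7) (A : Set G7), ∑ u ∈ S, (ind A).1 u = ((S.filter fun u => u ∈ A).card : ℝ) := by
    intro S A
    rw [Finset.card_filter]
    push_cast
    refine Finset.sum_congr rfl fun u _ => ?_
    by_cases h : u ∈ A
    · rw [ind_mem h, if_pos h]
    · rw [ind_notMem h, if_neg h]
  simp only [Bd.coe_add_apply, Finset.sum_add_distrib, hsum]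
  set X1 := (P3 Φ).filter fun u => u ∈ SS E 0 with hX1
  set X2 := (R2 Φ).filter fun u => u ∈ SS E 0 with hX2
  set X3 := ((R2 Φ).filter fun u => u ∈ SS E 1).image dbl with hX3
  have c3 : X3.card = ((R2 Φ).filter fun u => u ∈ SS E 1).card :=
    Finset.card_image_of_injective _ dbl.injective
  have c1 : ((P3 Φ).filter fun u => u ∈ SS E 1).card ≤ X1.card := by
    rw [← Finset.card_image_of_injective _ dbl.injective]
    refine Finset.card_le_card ?_
    intro v hv
    rw [Finset.mem_image] at hv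
    obtain ⟨u, hu, rfl⟩ := hv
    rw [Finset.mem_filter, P3, Finset.mem_filter] at hu
    rw [hX1, Finset.mem_filter, P3, Finset.mem_filter]
    exact ⟨⟨hu.1.2.1, hu.1.2.2, by rw [dbl3]; exact hu.1.1⟩, hu.2⟩
  have c2 : ((P3 Φ).filter fun u => u ∈ SS E 2).card ≤ X1.card := by
    rw [← Finset.card_image_of_injective _ (dbl.injective.comp dbl.injective)]
    refine Finset.card_le_card ?_
    intro v hv
    rw [Finset.mem_image] at hv
    obtain ⟨u, hu, rfl⟩ := hv
    rw [Finset.mem_filter, P3, Finset.mem_filter] at hu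
    rw [hX1, Finset.mem_filter, P3, Finset.mem_filter]
    simp only [Function.comp_apply]
    exact ⟨⟨hu.1.2.2, by rw [dbl3]; exact hu.1.1, by rw [dbl3]; exact hu.1.2.1⟩, hu.2⟩
  have d12 : Disjoint X1 X2 := by
    rw [Finset.disjoint_left]
    intro u h1 h2
    rw [hX1, Finset.mem_filter, P3, Finset.mem_filter] at h1
    rw [hX2, Finset.mem_filter, R2, Finset.mem_filter] at h2
    exact h2.1.2.2 h1.1.2.2
  have d3 : Disjoint (X1 ∪ X2) X3 := by
    rw [Finset.disjoint_left]
    intro v h1 h2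
    rw [hX3, Finset.mem_image] at h2
    obtain ⟨u, hu, rfl⟩ := h2
    rw [Finset.mem_filter, R2, Finset.mem_filter] at hu
    rw [Finset.mem_union, hX1, hX2, Finset.mem_filter, Finset.mem_filter, P3, R2,
      Finset.mem_filter, Finset.mem_filter] at h1
    rcases h1 with h1 | h1
    · exact hu.1.2.2 h1.1.2.1
    · exact hu.1.2.2 h1.1.2.1
  have hsub : (X1 ∪ X2) ∪ X3 ⊆ Φ.filter fun u => u ∈ E := by
    intro v hv
    rw [Finset.mem_union, Finset.mem_union] at hv
    rw [Finset.mem_filter]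
    rcases hv with (hv | hv) | hv
    · rw [hX1, Finset.mem_filter, P3, Finset.mem_filter] at hv
      exact ⟨hv.1.1, hv.2⟩
    · rw [hX2, Finset.mem_filter, R2, Finset.mem_filter] at hv
      exact ⟨hv.1.1, hv.2⟩
    · rw [hX3, Finset.mem_image] at hv
      obtain ⟨u, hu, rfl⟩ := hv
      rw [Finset.mem_filter, R2, Finset.mem_filter] at hu
      exact ⟨hu.1.2.1, hu.2⟩
  have h1 := Finset.card_le_card hsub
  rw [Finset.card_union_of_disjoint d3, Finset.card_union_of_disjoint d12, c3] at h1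
  have h1' : (X1.card : ℝ) + X2.card + ((R2 Φ).filter fun u => u ∈ SS E 1).card ≤
    ((Φ.filter fun u => u ∈ E).card : ℝ) := by exact_mod_cast h1
  have c1' : (((P3 Φ).filter fun u => u ∈ SS E 1).card : ℝ) ≤ X1.card := by exact_mod_cast c1
  have c2' : (((P3 Φ).filter fun u => u ∈ SS E 2).card : ℝ) ≤ X1.card := by exact_mod_cast c2
  linarith

end Pool.Agent.LibSumset
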