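import Pool.Agent.LibSumset.Corr

set_option autoImplicit false

open Filter Topology

namespace Pool.Agent.LibSumset

section char

variable (N : ℕ) [NeZero N]

/-- real part of the standard character -/
noncomputable def eC (x : ZMod N) : ℝ := (ZMod.stdAddChar x : ℂ).re
/-- imaginary part of the standard character -/
noncomputable def eD (x : ZMod N) : ℝ := (ZMod.stdAddChar x : ℂ).im

theorem norm_std (x : ZMod N) : ‖(ZMod.stdAddChar x : ℂ)‖ = 1 := AddChar.norm_apply _ _

theorem abs_eC_le (x : ZMod N) : |eC N x| ≤ 1 := by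
  rw [← norm_std N x]; exact Complex.abs_re_le_norm _

theorem abs_eD_le (x : ZMod N) : |eD N x| ≤ 1 := by
  rw [← norm_std N x]; exact Complex.abs_im_le_norm _

theorem eC_sq_add (x : ZMod N) : eC N x * eC N x + eD N x * eD N x = 1 := by
  have h := norm_std N x
  have h2 := Complex.normSq_eq_norm_sq (ZMod.stdAddChar x : ℂ)
  rw [h, Complex.normSq_apply] at h2
  simpa [eC, eD] using h2

theorem eC_zero : eC N 0 = 1 := by simp [eC]

theorem eC_sub (x y : ZMod N) : eC N (x - y) = eC N x * eC N y + eD N x * eD N y := by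
  unfold eC eD
  rw [sub_eq_add_neg, AddChar.map_add_eq_mul, AddChar.map_neg_eq_conj]
  simp [Complex.mul_re]

theorem eC_neg (x : ZMod N) : eC N (-x) = eC N x := by
  unfold eC
  rw [AddChar.map_neg_eq_conj]; simp

theorem eD_neg (x : ZMod N) : eD N (-x) = -eD N x := by
  unfold eD
  rw [AddChar.map_neg_eq_conj]; simp

theorem eC_add (x y : ZMod N) : eC N (x + y) = eC N x * eC N y - eD N x * eD N y := by
  have := eC_sub N x (-y)
  rw [sub_neg_eq_add, eC_neg, eD_neg] at this
  rw [this]; ring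

theorem eC_mul (x y : ZMod N) : eC N x * eC N y = (eC N (x + y) + eC N (x - y)) / 2 := by
  rw [eC_add, eC_sub]; ring

/-- the dot product on vectors -/
def dot {M : ℕ} (s a : Fin M → ZMod N) : ZMod N := ∑ i, a i * s i

omit [NeZero N] in
theorem dot_add {M : ℕ} (s t a : Fin M → ZMod N) : dot N (s + t) a = dot N s a + dot N t a := by
  unfold dot; rw [← Finset.sum_add_distrib]
  exact Finset.sum_congr rfl fun i _ => by rw [Pi.add_apply, mul_add]

omit [NeZero N] in
theorem dot_sub {M : ℕ} (s t a : Fin M → ZMod N) : dot N (s - t) a = dot N s a - dot N t a := by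
  unfold dot; rw [← Finset.sum_sub_distrib]
  exact Finset.sum_congr rfl fun i _ => by rw [Pi.sub_apply, mul_sub]

theorem std_sum {ι : Type*} (s : Finset ι) (f : ι → ZMod N) :
    (ZMod.stdAddChar (∑ i ∈ s, f i) : ℂ) = ∏ i ∈ s, (ZMod.stdAddChar (f i) : ℂ) := by
  classical
  induction s using Finset.induction_on with
  | empty => simp
  | insert a s ha ih => rw [Finset.sum_insert ha, Finset.prod_insert ha, AddChar.map_add_eq_mul, ih]

theorem orth_complex {M : ℕ} (s : Fin M → ZMod N) :
    ∑ a : Fin M → ZMod N, (ZMod.stdAddChar (dot N s a) : ℂ) = if s = 0 then (N : ℂ) ^ M else 0 := by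
  classical
  unfold dot
  simp only [std_sum]
  have h := Finset.prod_univ_sum (fun _ : Fin M => (Finset.univ : Finset (ZMod N)))
    (fun i x => (ZMod.stdAddChar (x * s i) : ℂ))
  rw [Fintype.piFinset_univ] at h
  rw [← h]
  have h2 : ∀ i, ∑ x : ZMod N, (ZMod.stdAddChar (x * s i) : ℂ) = if s i = 0 then (N : ℂ) else 0 := by
    intro i
    have := AddChar.sum_mulShift (R := ZMod N) (R' := ℂ) (s i) (ZMod.isPrimitive_stdAddChar N)
    rw [this]
    by_cases h0 : s i = 0
    · simp [h0, ZMod.card]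
    · simp [h0]
  simp only [h2]
  by_cases hs : s = 0
  · subst hs; simp
  · rw [if_neg hs]
    obtain ⟨i, hi⟩ : ∃ i, s i ≠ 0 := by
      by_contra hcon; push Not at hcon; exact hs (funext hcon)
    exact Finset.prod_eq_zero (Finset.mem_univ i) (by rw [if_neg hi])

theorem orth {M : ℕ} (s : Fin M → ZMod N) :
    ∑ a : Fin M → ZMod N, eC N (dot N s a) = if s = 0 then (N : ℝ) ^ M else 0 := by
  have h := congrArg Complex.re (orth_complex N s)
  rw [Complex.re_sum] at h
  unfold eC
  rw [h]
  by_cases hs : s = 0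
  · simp only [hs, if_true]
    have : ((N : ℂ) ^ M) = (((N : ℝ) ^ M : ℝ) : ℂ) := by push_cast; rfl
    rw [this, Complex.ofReal_re]
  · simp [hs]

/-- Parseval for an even real function. -/
theorem parseval {M : ℕ} (W : (Fin M → ZMod N) → ℝ) (hW : ∀ s, W (-s) = W s) :
    ∑ a : Fin M → ZMod N, (((N : ℝ) ^ M)⁻¹ * ∑ s, W s * eC N (dot N s a)) ^ 2 =
      ((N : ℝ) ^ M)⁻¹ * ∑ s, (W s) ^ 2 := by
  classical
  have hn : (N : ℝ) ^ M ≠ 0 := pow_ne_zero _ (Nat.cast_ne_zero.2 (NeZero.ne N))
  set n : ℝ := (N : ℝ) ^ M with hndef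
  have h1 : ∀ a : Fin M → ZMod N, (n⁻¹ * ∑ s, W s * eC N (dot N s a)) ^ 2 =
      n⁻¹ * n⁻¹ * ∑ s, ∑ t, W s * W t * ((eC N (dot N (s + t) a) + eC N (dot N (s - t) a)) / 2) := by
    intro a
    rw [mul_pow, sq, sq (∑ s, W s * eC N (dot N s a)), Finset.sum_mul_sum]
    congr 1
    refine Finset.sum_congr rfl fun s _ => Finset.sum_congr rfl fun t _ => ?_
    rw [dot_add, dot_sub, ← eC_mul]; ring
  simp only [h1]
  rw [← Finset.mul_sum, Finset.sum_comm]
  have h2 : ∀ s : Fin M → ZMod N, ∑ a : Fin M → ZMod N, ∑ t, W s * W t *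
      ((eC N (dot N (s + t) a) + eC N (dot N (s - t) a)) / 2) = n * (W s) ^ 2 := by
    intro s
    rw [Finset.sum_comm]
    have h3 : ∀ t : Fin M → ZMod N, ∑ a : Fin M → ZMod N, W s * W t *
        ((eC N (dot N (s + t) a) + eC N (dot N (s - t) a)) / 2) =
        W s * W t * (((if s + t = 0 then n else 0) + (if s - t = 0 then n else 0)) / 2) := by
      intro t
      rw [← Finset.mul_sum, ← Finset.sum_div, Finset.sum_add_distrib, orth, orth]
    simp only [h3]
    have h4 : ∀ t : Fin M → ZMod N,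
        W s * W t * (((if s + t = 0 then n else 0) + (if s - t = 0 then n else 0)) / 2) =
        (if t = -s then W s * W t * (n / 2) else 0) + (if t = s then W s * W t * (n / 2) else 0) := by
      intro t
      have e1 : (s + t = 0) ↔ (t = -s) := by
        rw [add_comm]; exact add_eq_zero_iff_eq_neg
      have e2 : (s - t = 0) ↔ (t = s) := by rw [sub_eq_zero]; exact eq_comm
      simp only [e1, e2]
      split_ifs <;> ring
    simp only [h4]
    rw [Finset.sum_add_distrib, Finset.sum_ite_eq' Finset.univ (-s), Finset.sum_ite_eq' Finset.univ s]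
    simp only [Finset.mem_univ, if_true, hW]
    ring
  simp only [h2]
  rw [← Finset.mul_sum]
  field_simp

theorem inversion {M : ℕ} (W : (Fin M → ZMod N) → ℝ) :
    ∑ a : Fin M → ZMod N, (((N : ℝ) ^ M)⁻¹ * ∑ s, W s * eC N (dot N s a)) = W 0 := by
  classical
  have hn : (N : ℝ) ^ M ≠ 0 := pow_ne_zero _ (Nat.cast_ne_zero.2 (NeZero.ne N))
  rw [← Finset.mul_sum, Finset.sum_comm]
  simp only [← Finset.mul_sum, orth]
  simp only [mul_ite, mul_zero]
  rw [Finset.sum_ite_eq' Finset.univ 0]
  simp only [Finset.mem_univ, if_true]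
  field_simp

end char

end Pool.Agent.LibSumset
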