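import Pool.Agent.LibSumset.Build

set_option autoImplicit false

open Filter Topology

namespace Pool.Agent.LibSumset

abbrev G7 : Type := GN 7

instance : Infinite G7 :=
  Infinite.of_injective (fun n : ℕ => Finsupp.single n (1 : ZMod 7))
    (Finsupp.single_left_injective (by decide : (1 : ZMod 7) ≠ 0))

theorem seven_smul (t : G7) : (7 : ℕ) • t = 0 := by
  ext n
  rw [Finsupp.smul_apply, nsmul_eq_mul]
  have : ((7 : ℕ) : ZMod 7) = 0 := CharP.cast_eq_zero (ZMod 7) 7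
  rw [this, zero_mul]; rfl

theorem eight_smul (t : G7) : (8 : ℕ) • t = t := by
  have : (8 : ℕ) • t = (7 : ℕ) • t + t := by rw [← succ_nsmul]
  rw [this, seven_smul, zero_add]

/-- doubling as an automorphism -/
noncomputable def dbl : G7 ≃+ G7 where
  toFun t := t + t
  invFun t := (4 : ℕ) • t
  left_inv t := by
    show (4 : ℕ) • (t + t) = t
    have : (4 : ℕ) • (t + t) = (8 : ℕ) • t := by rw [← two_nsmul, smul_smul]; rfl
    rw [this, eight_smul]
  right_inv t := by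
    show (4 : ℕ) • t + (4 : ℕ) • t = t
    have : (4 : ℕ) • t + (4 : ℕ) • t = (8 : ℕ) • t := by rw [← add_nsmul]
    rw [this, eight_smul]
  map_add' x y := by abel

theorem dbl_apply (t : G7) : dbl t = t + t := rfl

theorem dbl3 (t : G7) : dbl (dbl (dbl t)) = t := by
  have : dbl (dbl (dbl t)) = (8 : ℕ) • t := by
    simp only [dbl_apply]; abel
  rw [this, eight_smul]

theorem dbl_map (H : AddSubgroup G7) : H.map (dbl : G7 →+ G7) = H := by
  ext x
  constructor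
  · rintro ⟨y, hy, rfl⟩
    exact H.add_mem hy hy
  · intro hx
    refine ⟨(4 : ℕ) • x, H.nsmul_mem hx 4, ?_⟩
    exact dbl.right_inv x

/-- preimages of `E` under multiplication by 1, 2, 4 -/
def SS (E : Set G7) : Fin 3 → Set G7
  | 0 => E
  | 1 => {u | dbl u ∈ E}
  | 2 => {u | dbl (dbl u) ∈ E}

theorem cE_compl {G : Type*} [AddCommGroup G] {m : Bd G →ₗ[ℝ] ℝ} (hm : IsMean m)
    (H : AddSubgroup G) [H.FiniteIndex] (A : Set G) (t : G) :
    (cE H hm (ind Aᶜ)).1 t = 1 - (cE H hm (ind A)).1 t := by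
  have h1 : ind Aᶜ = 1 - ind A := by
    ext x
    rw [Bd.coe_sub_apply, Bd.coe_one_apply]
    by_cases hx : x ∈ A
    · rw [ind_mem hx, ind_notMem (by simpa using hx), sub_self]
    · rw [ind_notMem hx, ind_mem (by simpa using hx), sub_zero]
  rw [cE_apply, cE_apply, h1, sub_mul, one_mul, map_sub, hm.ind_cls H, mul_sub,
    mul_inv_cancel₀ (index_pos' H).ne']

theorem m_cE {G : Type*} [AddCommGroup G] {m : Bd G →ₗ[ℝ] ℝ} (hm : IsMean m)
    (H : AddSubgroup G) [H.FiniteIndex] (φ : Bd G) : m (cE H hm φ) = m φ := by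
  have := cE_mul_per H hm φ (Per.one (H := H))
  rwa [mul_one, mul_one] at this

/-- Hypothesis: no infinite `B` with `B + B` disjoint from `E`. -/
def NoB (E : Set G7) : Prop := ¬ ∃ B : Set G7, B.Infinite ∧ ∀ x ∈ B, ∀ y ∈ B, x + y ∉ E

theorem noB_shift {E : Set G7} (hE : NoB E) (d : G7 ≃+ G7) :
    ¬ ∃ B : Set G7, B.Infinite ∧ B ⊆ {u | d (dbl u) ∈ E}ᶜ ∧
      ∀ x ∈ B, ∀ y ∈ B, x ≠ y → x + y ∉ {u | d u ∈ E} := by
  rintro ⟨B, hB1, hB2, hB3⟩
  refine hE ⟨d '' B, hB1.image d.injective.injOn, ?_⟩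
  rintro _ ⟨x, hx, rfl⟩ _ ⟨y, hy, rfl⟩ hxy
  rw [← map_add] at hxy
  by_cases h : x = y
  · subst h
    exact hB2 hx hxy
  · exact hB3 x hx y hy h hxy

theorem key_bad {E : Set G7} (hE : NoB E) {m : Bd G7 →ₗ[ℝ] ℝ} (hm : IsErg m) {κ : ℝ}
    (hκ : 0 < κ) (hκ1 : κ ≤ 1) :
    ∃ H : AddSubgroup G7, H.FiniteIndex ∧
      m (ind {t | (cE H hm.toIsMean (ind (SS E 1))).1 t ≤ 1 - κ ∧
        (cE H hm.toIsMean (ind (SS E 0))).1 (dbl t) ≤ 1 - κ}) < κ ∧
      m (ind {t | (cE H hm.toIsMean (ind (SS E 2))).1 t ≤ 1 - κ ∧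
        (cE H hm.toIsMean (ind (SS E 1))).1 (dbl t) ≤ 1 - κ}) < κ ∧
      m (ind {t | (cE H hm.toIsMean (ind (SS E 0))).1 t ≤ 1 - κ ∧
        (cE H hm.toIsMean (ind (SS E 2))).1 (dbl t) ≤ 1 - κ}) < κ := by
  have hM := hm.toIsMean
  obtain ⟨Hs, hfi, hanti, hmax⟩ := exists_chain hM (SS E)
  have hWM : ∀ i, ∀ η : ℝ, 0 < η → ∀ᶠ J in atTop, ∀ φ : Bd G7, m (φ * φ) ≤ 1 →
      m (cor hm.toIsMean φ (ind (SS E i) - cE (Hs J) hm.toIsMean (ind (SS E i))) *
        cor hm.toIsMean φ (ind (SS E i) - cE (Hs J) hm.toIsMean (ind (SS E i)))) ≤ η := by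
    intro i η hη
    have h1 : Tendsto (fun J : ℕ => Real.sqrt (2 * (1 / ((J : ℝ) + 1)))) atTop (𝓝 0) := by
      have h2 : Tendsto (fun J : ℕ => 2 * (1 / ((J : ℝ) + 1))) atTop (𝓝 0) := by
        have := (tendsto_one_div_add_atTop_nhds_zero_nat (𝕜 := ℝ)).const_mul 2
        simpa using this
      have h3 := (Real.continuous_sqrt.tendsto 0).comp h2
      rw [Real.sqrt_zero] at h3
      exact h3
    filter_upwards [h1.eventually (ge_mem_nhds hη)] with J hJ φ hφ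
    have := hfi J
    exact (wm hm (SS E i) (Hs J) (by positivity) (fun H' h1 h2 => hmax J H' h1 h2 i) φ hφ).trans hJ
  have hrob : ∀ (i i' : Fin 3) (d : G7 ≃+ G7),
      SS E i = {u | d u ∈ E} → SS E i' = {u | d (dbl u) ∈ E} →
      ∀ᶠ j in atTop, m (ind {t | (cE (Hs j) hm.toIsMean (ind (SS E i'))).1 t ≤ 1 - κ ∧
        (cE (Hs j) hm.toIsMean (ind (SS E i))).1 (dbl t) ≤ 1 - κ}) < κ := by
    intro i i' d h1 h2
    have h3 : ¬ Rob hM Hs dbl (ind (SS E i)) κ (SS E i')ᶜ := by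
      intro hR
      obtain ⟨B, hB1, hB2, hB3⟩ := build hM Hs hanti dbl dbl_map (fun t => rfl) (SS E i)
        (hWM i) hκ hκ1 _ hR
      refine noB_shift hE d ⟨B, hB1, ?_, ?_⟩
      · rw [h2] at hB2; exact hB2
      · rw [h1] at hB3; exact hB3
    unfold Rob at h3
    rw [not_frequently] at h3
    filter_upwards [h3] with j hj
    rw [not_le] at hj
    have := hfi j
    refine lt_of_le_of_lt (le_of_eq ?_) hj
    congr 2
    ext t
    simp only [Set.mem_ofPred_eq]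
    rw [cE_compl]
    constructor
    · rintro ⟨a, b⟩; exact ⟨by linarith, b⟩
    · rintro ⟨a, b⟩; exact ⟨by linarith, b⟩
  have r0 := hrob 0 1 (AddEquiv.refl _) rfl rfl
  have r1 := hrob 1 2 dbl rfl rfl
  have r2 := hrob 2 0 (dbl.trans dbl) rfl (by
    ext u
    show u ∈ E ↔ dbl (dbl (dbl u)) ∈ E
    rw [dbl3])
  obtain ⟨j, h0, h1, h2⟩ := (r0.and (r1.and r2)).exists
  exact ⟨Hs j, hfi j, h0, h1, h2⟩

theorem key2_erg {E : Set G7} (hE : NoB E) {m : Bd G7 →ₗ[ℝ] ℝ} (hm : IsErg m) :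
    1 ≤ m (ind (SS E 0) + ind (SS E 1)) := by
  have hM := hm.toIsMean
  have h : ∀ κ : ℝ, 0 < κ → κ ≤ 1 → (1 - κ) * (1 - κ) ≤ m (ind (SS E 0) + ind (SS E 1)) := by
    intro κ hκ hκ1
    obtain ⟨H, hH, h0, -, -⟩ := key_bad hE hm hκ hκ1
    set g0 := cE H hm.toIsMean (ind (SS E 0)) with hg0
    set g1 := cE H hm.toIsMean (ind (SS E 1)) with hg1
    set B0 : Set G7 := {t | g1.1 t ≤ 1 - κ ∧ g0.1 (dbl t) ≤ 1 - κ} with hB0
    have e1 : m (ind (SS E 0) + ind (SS E 1)) = m (comp g0 dbl + g1) := by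
      rw [map_add, map_add, hM.comp_aut H dbl (dbl_map H) (per_cE H hM _), m_cE, m_cE]
    rw [e1]
    have h3 : m ((1 - κ) • (1 - ind B0)) ≤ m (comp g0 dbl + g1) := by
      refine hM.mono fun t => ?_
      simp only [Bd.coe_smul_apply, Bd.coe_sub_apply, Bd.coe_one_apply, Bd.coe_add_apply,
        comp_apply]
      have a0 : 0 ≤ g0.1 (dbl t) := cE_nonneg' H hM _ _
      have a1 : 0 ≤ g1.1 t := cE_nonneg' H hM _ _
      by_cases ht : t ∈ B0
      · rw [ind_mem ht]; linarith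
      · rw [ind_notMem ht]
        by_cases h4 : g1.1 t ≤ 1 - κ
        · have h5 : ¬ g0.1 (dbl t) ≤ 1 - κ := fun h => ht ⟨h4, h⟩
          linarith
        · linarith
    rw [map_smul, map_sub, hM.one, smul_eq_mul] at h3
    refine le_trans ?_ h3
    exact mul_le_mul_of_nonneg_left (by linarith) (by linarith)
  by_contra hcon
  push Not at hcon
  set x := m (ind (SS E 0) + ind (SS E 1)) with hx
  have hx0 : 0 ≤ x := hM.nonneg _ fun t => add_nonneg (ind_nonneg _ _) (ind_nonneg _ _)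
  have := h ((1 - x) / 4) (by linarith) (by linarith)
  nlinarith

theorem key3_erg {E : Set G7} (hE : NoB E) {m : Bd G7 →ₗ[ℝ] ℝ} (hm : IsErg m) :
    2 ≤ m (ind (SS E 0) + ind (SS E 1) + ind (SS E 2)) := by
  have hM := hm.toIsMean
  have h : ∀ κ : ℝ, 0 < κ → κ ≤ 1 →
      2 * (1 - κ) * (1 - 3 * κ) ≤ m (ind (SS E 0) + ind (SS E 1) + ind (SS E 2)) := by
    intro κ hκ hκ1
    obtain ⟨H, hH, h0, h1, h2⟩ := key_bad hE hm hκ hκ1
    set g0 := cE H hm.toIsMean (ind (SS E 0)) with hg0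
    set g1 := cE H hm.toIsMean (ind (SS E 1)) with hg1
    set g2 := cE H hm.toIsMean (ind (SS E 2)) with hg2
    set B0 : Set G7 := {t | g1.1 t ≤ 1 - κ ∧ g0.1 (dbl t) ≤ 1 - κ} with hB0
    set B1 : Set G7 := {t | g2.1 t ≤ 1 - κ ∧ g1.1 (dbl t) ≤ 1 - κ} with hB1
    set B2 : Set G7 := {t | g0.1 t ≤ 1 - κ ∧ g2.1 (dbl t) ≤ 1 - κ} with hB2
    have p0 : Per H g0 := per_cE H hM _
    have p1 : Per H g1 := per_cE H hM _
    have p2 : Per H g2 := per_cE H hM _
    have e1 : m (ind (SS E 0) + ind (SS E 1) + ind (SS E 2)) =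
        m (g0 + comp (comp g1 dbl) dbl + comp g2 dbl) := by
      rw [map_add, map_add, map_add, map_add, hM.comp_aut H dbl (dbl_map H) p2,
        hM.comp_aut H dbl (dbl_map H) (per_comp dbl_map p1), hM.comp_aut H dbl (dbl_map H) p1,
        m_cE, m_cE, m_cE]
    rw [e1]
    have pB0 : Per H (ind B0) := per_ind_of_iff fun x y hxy => by
      have a := p1 x y hxy
      have b := (per_comp dbl_map p0) x y hxy
      rw [comp_apply, comp_apply] at b
      simp only [hB0, Set.mem_ofPred_eq, a, b]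
    have pB1 : Per H (ind B1) := per_ind_of_iff fun x y hxy => by
      have a := p2 x y hxy
      have b := (per_comp dbl_map p1) x y hxy
      rw [comp_apply, comp_apply] at b
      simp only [hB1, Set.mem_ofPred_eq, a, b]
    have h3 : m ((2 * (1 - κ)) • (1 - comp (comp (ind B0) dbl) dbl - comp (ind B1) dbl - ind B2)) ≤
        m (g0 + comp (comp g1 dbl) dbl + comp g2 dbl) := by
      refine hM.mono fun t => ?_
      simp only [Bd.coe_smul_apply, Bd.coe_sub_apply, Bd.coe_one_apply, Bd.coe_add_apply,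
        comp_apply]
      have a0 : 0 ≤ g0.1 t := cE_nonneg' H hM _ _
      have a1 : 0 ≤ g1.1 (dbl (dbl t)) := cE_nonneg' H hM _ _
      have a2 : 0 ≤ g2.1 (dbl t) := cE_nonneg' H hM _ _
      have n0 := ind_nonneg B0 (dbl (dbl t))
      have n1 := ind_nonneg B1 (dbl t)
      have n2 := ind_nonneg B2 t
      have hk : 0 ≤ 2 * (1 - κ) := by linarith
      have hbig : ∀ y : ℝ, y ≤ 0 → 2 * (1 - κ) * y ≤
          g0.1 t + g1.1 (dbl (dbl t)) + g2.1 (dbl t) := by
        intro y hy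
        have := mul_nonpos_of_nonneg_of_nonpos hk hy
        linarith
      by_cases h4 : dbl (dbl t) ∈ B0
      · rw [ind_mem h4]; exact hbig _ (by linarith)
      by_cases h5 : dbl t ∈ B1
      · rw [ind_mem h5]; exact hbig _ (by linarith)
      by_cases h6 : t ∈ B2
      · rw [ind_mem h6]; exact hbig _ (by linarith)
      rw [ind_notMem h4, ind_notMem h5, ind_notMem h6]
      by_cases k0 : g0.1 t ≤ 1 - κ
      · have k2 : ¬ g2.1 (dbl t) ≤ 1 - κ := fun h => h6 ⟨k0, h⟩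
        have k1 : ¬ g1.1 (dbl (dbl t)) ≤ 1 - κ := fun h => h4 ⟨h, by rw [dbl3]; exact k0⟩
        linarith
      · by_cases k1 : g1.1 (dbl (dbl t)) ≤ 1 - κ
        · have k2 : ¬ g2.1 (dbl t) ≤ 1 - κ := fun h => h5 ⟨h, k1⟩
          linarith
        · linarith
    rw [map_smul, map_sub, map_sub, map_sub, hM.one,
      hM.comp_aut H dbl (dbl_map H) (per_comp dbl_map pB0), hM.comp_aut H dbl (dbl_map H) pB0,
      hM.comp_aut H dbl (dbl_map H) pB1, smul_eq_mul] at h3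
    refine le_trans ?_ h3
    exact mul_le_mul_of_nonneg_left (by linarith) (by linarith)
  by_contra hcon
  push Not at hcon
  set x := m (ind (SS E 0) + ind (SS E 1) + ind (SS E 2)) with hx
  have hx0 : 0 ≤ x := hM.nonneg _ fun t =>
    add_nonneg (add_nonneg (ind_nonneg _ _) (ind_nonneg _ _)) (ind_nonneg _ _)
  have := h ((2 - x) / 10) (by linarith) (by linarith)
  nlinarith

theorem key2 {E : Set G7} (hE : NoB E) {m : Bd G7 →ₗ[ℝ] ℝ} (hm : IsMean m) :
    1 ≤ m (ind (SS E 0) + ind (SS E 1)) := by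
  obtain ⟨m', hm', hle⟩ := exists_isErg hm (ind (SS E 0) + ind (SS E 1))
  exact (key2_erg hE hm').trans hle

theorem key3 {E : Set G7} (hE : NoB E) {m : Bd G7 →ₗ[ℝ] ℝ} (hm : IsMean m) :
    2 ≤ m (ind (SS E 0) + ind (SS E 1) + ind (SS E 2)) := by
  obtain ⟨m', hm', hle⟩ := exists_isErg hm (ind (SS E 0) + ind (SS E 1) + ind (SS E 2))
  exact (key3_erg hE hm').trans hle

end Pool.Agent.LibSumset
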