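import Mathlib

set_option autoImplicit false

namespace Pool.Agent.LibSumset

/-- The algebra of bounded real functions on a type. -/
def Bd (G : Type*) : Subalgebra ℝ (G → ℝ) where
  carrier := {f | ∃ C : ℝ, ∀ x, |f x| ≤ C}
  mul_mem' := by
    rintro a b ⟨C, hC⟩ ⟨D, hD⟩
    refine ⟨C * D, fun x => ?_⟩
    rw [Pi.mul_apply, abs_mul]
    exact mul_le_mul (hC x) (hD x) (abs_nonneg _) ((abs_nonneg _).trans (hC x))
  add_mem' := by
    rintro a b ⟨C, hC⟩ ⟨D, hD⟩
    exact ⟨C + D, fun x => (abs_add_le _ _).trans (add_le_add (hC x) (hD x))⟩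
  algebraMap_mem' := by
    intro r
    exact ⟨|r|, fun x => le_of_eq rfl⟩

variable {G : Type*}

theorem Bd.mem_iff (f : G → ℝ) : f ∈ Bd G ↔ ∃ C : ℝ, ∀ x, |f x| ≤ C := Iff.rfl

@[ext] theorem Bd.ext {f g : Bd G} (h : ∀ x, f.1 x = g.1 x) : f = g :=
  Subtype.ext (funext h)

@[simp] theorem Bd.coe_add_apply (f g : Bd G) (x : G) : (f + g).1 x = f.1 x + g.1 x := rfl
@[simp] theorem Bd.coe_sub_apply (f g : Bd G) (x : G) : (f - g).1 x = f.1 x - g.1 x := rfl
@[simp] theorem Bd.coe_mul_apply (f g : Bd G) (x : G) : (f * g).1 x = f.1 x * g.1 x := rfl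
@[simp] theorem Bd.coe_neg_apply (f : Bd G) (x : G) : (-f).1 x = -(f.1 x) := rfl
@[simp] theorem Bd.coe_one_apply (x : G) : (1 : Bd G).1 x = 1 := rfl
@[simp] theorem Bd.coe_zero_apply (x : G) : (0 : Bd G).1 x = 0 := rfl
@[simp] theorem Bd.coe_smul_apply (c : ℝ) (f : Bd G) (x : G) : (c • f).1 x = c * f.1 x := rfl
@[simp] theorem Bd.coe_pow_apply (f : Bd G) (n : ℕ) (x : G) : (f ^ n).1 x = f.1 x ^ n := by
  rw [Subalgebra.coe_pow]; rfl
@[simp] theorem Bd.coe_sum_apply {ι : Type*} (s : Finset ι) (f : ι → Bd G) (x : G) :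
    (∑ i ∈ s, f i).1 x = ∑ i ∈ s, (f i).1 x := by
  rw [AddSubmonoidClass.coe_finsetSum]
  exact Finset.sum_apply x s _

/-- Indicator function of a set. -/
noncomputable def ind (S : Set G) : Bd G :=
  ⟨S.indicator 1, 1, fun x => by
    by_cases h : x ∈ S
    · simp [Set.indicator_of_mem h]
    · simp [Set.indicator_of_notMem h]⟩

theorem ind_apply (S : Set G) (x : G) : (ind S).1 x = S.indicator 1 x := rfl

theorem ind_mem {S : Set G} {x : G} (h : x ∈ S) : (ind S).1 x = 1 := by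
  simp [ind_apply, Set.indicator_of_mem h]

theorem ind_notMem {S : Set G} {x : G} (h : x ∉ S) : (ind S).1 x = 0 := by
  simp [ind_apply, Set.indicator_of_notMem h]

theorem ind_nonneg (S : Set G) (x : G) : 0 ≤ (ind S).1 x := by
  by_cases h : x ∈ S
  · rw [ind_mem h]; exact zero_le_one
  · rw [ind_notMem h]

theorem ind_le_one (S : Set G) (x : G) : (ind S).1 x ≤ 1 := by
  by_cases h : x ∈ S
  · rw [ind_mem h]
  · rw [ind_notMem h]; exact zero_le_one

theorem ind_mul_self (S : Set G) : ind S * ind S = ind S := by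
  ext x
  by_cases h : x ∈ S
  · simp [ind_mem h]
  · simp [ind_notMem h]

/-- Composition of a bounded function with a map. -/
def comp (f : Bd G) (p : G → G) : Bd G :=
  ⟨fun x => f.1 (p x), by obtain ⟨C, hC⟩ := f.2; exact ⟨C, fun x => hC _⟩⟩

@[simp] theorem comp_apply (f : Bd G) (p : G → G) (x : G) : (comp f p).1 x = f.1 (p x) := rfl

section group

variable [AddCommGroup G]

/-- Translation: `(T g f) x = f (x + g)`. -/
def T (g : G) : Bd G →ₐ[ℝ] Bd G where
  toFun f := ⟨fun x => f.1 (x + g), by obtain ⟨C, hC⟩ := f.2; exact ⟨C, fun x => hC _⟩⟩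
  map_one' := by ext x; simp
  map_mul' f g := by ext x; simp
  map_zero' := by ext x; simp
  map_add' f g := by ext x; simp
  commutes' r := by ext x; rfl

@[simp] theorem T_apply (g : G) (f : Bd G) (x : G) : (T g f).1 x = f.1 (x + g) := rfl

theorem T_zero (f : Bd G) : T 0 f = f := by ext x; simp

theorem T_T (g h : G) (f : Bd G) : T g (T h f) = T (g + h) f := by
  ext x; simp [add_assoc]

/-- An invariant mean on the bounded functions of the group `G`. -/
structure IsMean (m : Bd G →ₗ[ℝ] ℝ) : Prop where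
  nonneg : ∀ f : Bd G, (∀ x, 0 ≤ f.1 x) → 0 ≤ m f
  one : m 1 = 1
  inv : ∀ (g : G) (f : Bd G), m (T g f) = m f

namespace IsMean

variable {m : Bd G →ₗ[ℝ] ℝ} (hm : IsMean m)

include hm

theorem mono {f g : Bd G} (h : ∀ x, f.1 x ≤ g.1 x) : m f ≤ m g := by
  have := hm.nonneg (g - f) (fun x => by simp [h x])
  rw [map_sub] at this
  linarith

theorem const (c : ℝ) : m (c • 1) = c := by
  rw [map_smul, hm.one]; simp

theorem le_of_le {f : Bd G} {C : ℝ} (h : ∀ x, f.1 x ≤ C) : m f ≤ C := by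
  have := hm.mono (f := f) (g := C • 1) (fun x => by simpa using h x)
  rwa [hm.const] at this

theorem ge_of_ge {f : Bd G} {C : ℝ} (h : ∀ x, C ≤ f.1 x) : C ≤ m f := by
  have := hm.mono (f := C • 1) (g := f) (fun x => by simpa using h x)
  rwa [hm.const] at this

theorem abs_le {f : Bd G} {C : ℝ} (h : ∀ x, |f.1 x| ≤ C) : |m f| ≤ C := by
  rw [_root_.abs_le]
  exact ⟨hm.ge_of_ge fun x => (_root_.abs_le.1 (h x)).1, hm.le_of_le fun x => (_root_.abs_le.1 (h x)).2⟩

theorem sq_nonneg (f : Bd G) : 0 ≤ m (f * f) :=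
  hm.nonneg _ fun x => by simpa using mul_self_nonneg (f.1 x)

/-- Cauchy-Schwarz. -/
theorem cauchy_schwarz (f g : Bd G) : (m (f * g)) ^ 2 ≤ m (f * f) * m (g * g) := by
  have h : ∀ t : ℝ, 0 ≤ m (g * g) * (t * t) + (2 * m (f * g)) * t + m (f * f) := by
    intro t
    have h1 := hm.sq_nonneg (f + t • g)
    have h2 : (f + t • g) * (f + t • g) = f * f + (2 * t) • (f * g) + (t * t) • (g * g) := by
      ext x; simp; ring
    rw [h2, map_add, map_add, map_smul, map_smul] at h1
    simp only [smul_eq_mul] at h1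
    linarith
  have := discrim_le_zero h
  rw [discrim] at this
  nlinarith

theorem inv_mul (g : G) (f k : Bd G) : m (T g f * k) = m (f * T (-g) k) := by
  have := hm.inv g (f * T (-g) k)
  rw [map_mul, T_T] at this
  simp only [add_neg_cancel, T_zero] at this
  exact this

end IsMean

end group

end Pool.Agent.LibSumset
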