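import Pool.Agent.LibSumset.Corr
import Pool.Agent.LibSumset.Cond

set_option autoImplicit false

open Filter Topology

namespace Pool.Agent.LibSumset

variable {G : Type*} [AddCommGroup G] {m : Bd G →ₗ[ℝ] ℝ}

theorem mono_bdd_cauchy (e : ℕ → ℝ) (he : Monotone e) (C : ℝ) (hC : ∀ n, e n ≤ C) {ε : ℝ}
    (hε : 0 < ε) : ∃ j₀, ∀ j ≥ j₀, ∀ j', e j' ≤ e j + ε := by
  have hb : BddAbove (Set.range e) := ⟨C, by rintro _ ⟨n, rfl⟩; exact hC n⟩
  have h1 := tendsto_atTop_ciSup he hb
  have h2 : ∀ᶠ j in atTop, (⨆ i, e i) - ε < e j :=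
    h1.eventually (lt_mem_nhds (by linarith))
  obtain ⟨j₀, hj₀⟩ := eventually_atTop.1 h2
  refine ⟨j₀, fun j hj j' => ?_⟩
  have h3 := hj₀ j hj
  have h4 : e j' ≤ ⨆ i, e i := le_ciSup hb j'
  linarith

theorem IsMean.ind_singleton (hm : IsMean m) (x y : G) : m (ind {x}) = m (ind {y}) := by
  rw [← hm.inv (x - y) (ind {x})]
  congr 1
  ext t
  rw [T_apply]
  by_cases h : t = y
  · subst h; rw [ind_mem (by simp), ind_mem (by simp)]
  · rw [ind_notMem (S := {y}) (by simpa using h), ind_notMem]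
    simp only [Set.mem_singleton_iff]
    intro h2
    apply h
    rw [← eq_sub_iff_add_eq] at h2
    rw [h2, sub_sub_cancel]

omit [AddCommGroup G] in
open Classical in
theorem ind_insert {x : G} {F : Finset G} (h : x ∉ F) :
    ind (↑(insert x F) : Set G) = ind {x} + ind (F : Set G) := by
  ext t
  rw [Bd.coe_add_apply]
  by_cases h1 : t = x
  · subst h1
    rw [ind_mem (by simp), ind_mem (by simp), ind_notMem (by simpa using h)]; simp
  · by_cases h2 : t ∈ F
    · rw [ind_mem (by simp [h2]), ind_notMem (S := {x}) (by simpa using h1), ind_mem (by simpa using h2)]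
      simp
    · rw [ind_notMem (by simp [h1, h2]), ind_notMem (S := {x}) (by simpa using h1),
        ind_notMem (by simpa using h2)]
      simp

theorem IsMean.ind_finset [Infinite G] (hm : IsMean m) (F : Finset G) : m (ind (F : Set G)) = 0 := by
  classical
  have h0 : ∀ F : Finset G, m (ind (F : Set G)) = F.card * m (ind {(0 : G)}) := by
    intro F
    induction F using Finset.induction_on with
    | empty =>
      have : ind ((∅ : Finset G) : Set G) = 0 := by
        ext t; rw [ind_notMem (by simp)]; simp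
      rw [this]; simp
    | insert x F hx ih =>
      rw [ind_insert hx, map_add, ih, Finset.card_insert_of_notMem hx, hm.ind_singleton x 0]
      push_cast; ring
  have h1 : m (ind {(0 : G)}) = 0 := by
    have hnn : 0 ≤ m (ind {(0 : G)}) := hm.nonneg _ (ind_nonneg _)
    by_contra hcon
    have hpos : 0 < m (ind {(0 : G)}) := lt_of_le_of_ne hnn (Ne.symm hcon)
    obtain ⟨n, hn⟩ := exists_nat_gt (m (ind {(0 : G)}))⁻¹
    obtain ⟨F, hF⟩ := Infinite.exists_subset_card_eq G n
    have h2 := h0 F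
    have h3 : m (ind (F : Set G)) ≤ 1 := hm.le_of_le (ind_le_one _)
    rw [hF] at h2
    rw [h2] at h3
    rw [inv_lt_iff_one_lt_mul₀ hpos] at hn
    linarith
  rw [h0, h1, mul_zero]

/-- Robust largeness of a set `C` with respect to the target function `h`. -/
def Rob (hm : IsMean m) (Hs : ℕ → AddSubgroup G) (p : G ≃+ G) (h : Bd G) (κ : ℝ) (C : Set G) :
    Prop :=
  ∃ᶠ j in atTop, κ ≤ m (ind {t | κ ≤ (cE (Hs j) hm (ind C)).1 t ∧
    (cE (Hs j) hm h).1 (p t) ≤ 1 - κ})

theorem pigeon (hm : IsMean m) (H : AddSubgroup G) [H.FiniteIndex] (S : Set G)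
    (hS : Per H (ind S)) (v : Bd G) (hv : ∀ x, 0 ≤ v.1 x) {κ δ : ℝ} (hκ : 0 < κ)
    (h1 : κ ≤ m (ind S)) (h2 : m v ≤ δ) :
    ∃ q : G ⧸ H, q.out ∈ S ∧ m (v * ind (cls H q.out)) ≤ δ / κ * (H.index : ℝ)⁻¹ := by
  have hδ : 0 ≤ δ := (hm.nonneg v hv).trans h2
  by_contra hcon
  push Not at hcon
  have h3 : m (v * ind S) ≤ δ := by
    refine le_trans (hm.mono fun x => ?_) h2
    rw [Bd.coe_mul_apply]
    exact mul_le_of_le_one_right (hv x) (ind_le_one _ _)
  have h4 := mul_per (m := m) hS v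
  have h5 := mul_per (m := m) hS 1
  simp only [one_mul, hm.ind_cls H] at h5
  have h6 : ∑ q : G ⧸ H, (ind S).1 q.out * (m (v * ind (cls H q.out)) -
      δ / κ * (H.index : ℝ)⁻¹) ≤ 0 := by
    have e : ∑ q : G ⧸ H, (ind S).1 q.out * (m (v * ind (cls H q.out)) -
      δ / κ * (H.index : ℝ)⁻¹) = m (v * ind S) - δ / κ * m (ind S) := by
      rw [h4, h5, Finset.mul_sum, ← Finset.sum_sub_distrib]
      refine Finset.sum_congr rfl fun q _ => ?_
      ring
    rw [e]
    have : δ / κ * κ ≤ δ / κ * m (ind S) := mul_le_mul_of_nonneg_left h1 (by positivity)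
    rw [div_mul_cancel₀ _ hκ.ne'] at this
    linarith
  have h7 : ∃ q : G ⧸ H, q.out ∈ S := by
    by_contra hno
    push Not at hno
    have : m (ind S) = 0 := by
      rw [h5]
      refine Finset.sum_eq_zero fun q _ => ?_
      rw [ind_notMem (hno q), zero_mul]
    linarith
  obtain ⟨q₀, hq₀⟩ := h7
  have h8 : 0 < ∑ q : G ⧸ H, (ind S).1 q.out * (m (v * ind (cls H q.out)) -
      δ / κ * (H.index : ℝ)⁻¹) := by
    refine Finset.sum_pos' (fun q _ => ?_) ⟨q₀, Finset.mem_univ _, ?_⟩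
    · by_cases hq : q.out ∈ S
      · exact mul_nonneg (ind_nonneg _ _) (by linarith [hcon q hq])
      · rw [ind_notMem hq, zero_mul]
    · rw [ind_mem hq₀, one_mul]
      linarith [hcon q₀ hq₀]
  linarith

theorem m_set_le (hm : IsMean m) {A : Set G} {v : Bd G} {c : ℝ} (hc : 0 < c)
    (hv : ∀ x, 0 ≤ v.1 x) (h : ∀ x ∈ A, c ≤ v.1 x) : m (ind A) ≤ m v / c := by
  rw [le_div_iff₀ hc]
  have : m (c • ind A) ≤ m v := by
    refine hm.mono fun x => ?_
    rw [Bd.coe_smul_apply]
    by_cases hx : x ∈ A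
    · rw [ind_mem hx, mul_one]; exact h x hx
    · rw [ind_notMem hx, mul_zero]; exact hv x
  rw [map_smul, smul_eq_mul] at this
  linarith

end Pool.Agent.LibSumset
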