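import Pool.Agent.LibSumset.Step

set_option autoImplicit false

open Filter Topology

namespace Pool.Agent.LibSumset

variable {G : Type*} [AddCommGroup G] {m : Bd G →ₗ[ℝ] ℝ}

omit [AddCommGroup G] in
theorem ind_inter (A B : Set G) : ind (A ∩ B) = ind A * ind B := by
  ext x
  rw [Bd.coe_mul_apply]
  by_cases h1 : x ∈ A
  · by_cases h2 : x ∈ B
    · rw [ind_mem h1, ind_mem h2, ind_mem (S := A ∩ B) ⟨h1, h2⟩, mul_one]
    · rw [ind_notMem h2, ind_notMem (S := A ∩ B) (fun h => h2 h.2), mul_zero]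
  · rw [ind_notMem h1, ind_notMem (S := A ∩ B) (fun h => h1 h.1), zero_mul]

omit [AddCommGroup G] in
theorem ind_abs_le (A : Set G) (x : G) : |(ind A).1 x| ≤ 1 := by
  rw [abs_of_nonneg (ind_nonneg A x)]; exact ind_le_one A x

theorem cE_nonneg' (H : AddSubgroup G) [H.FiniteIndex] (hm : IsMean m) (A : Set G) (x : G) :
    0 ≤ (cE H hm (ind A)).1 x := cE_ge H hm _ (ind_nonneg A) x

theorem cE_le_one' (H : AddSubgroup G) [H.FiniteIndex] (hm : IsMean m) (A : Set G) (x : G) :
    (cE H hm (ind A)).1 x ≤ 1 := cE_le H hm _ (ind_le_one A) x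

/-- Lower bound for the main term. -/
theorem main_term (hm : IsMean m) {H H' : AddSubgroup G} [H.FiniteIndex] [H'.FiniteIndex]
    (hle : H' ≤ H) (p : G ≃+ G) (hp : ∀ H : AddSubgroup G, H.map (p : G →+ G) = H)
    (hp2 : ∀ t, p t = t + t) (C S : Set G) (z₀ : G) {κ τ : ℝ} (hκ : 0 < κ)
    (h1 : m (ind {t | t ∈ cls H z₀ ∧ (cE H' hm (ind C)).1 t < κ / 2}) ≤ τ * (H.index : ℝ)⁻¹)
    (h2 : m (ind {t | t ∈ cls H z₀ ∧ 1 - κ / 2 < (cE H' hm (ind S)).1 (p t)}) ≤
      τ * (H.index : ℝ)⁻¹)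
    (u : G) (hu : u ∈ cls H z₀) :
    κ ^ 2 / 4 * (1 - 2 * τ) * (H.index : ℝ)⁻¹ ≤
      m (ind (C ∩ cls H z₀) * (1 - T u (cE H' hm (ind S)))) := by
  set f := cE H' hm (ind S) with hf
  set c := cE H' hm (ind C) with hc
  set Z := cls H z₀ with hZ
  have hfper : Per H' f := per_cE H' hm _
  have e1 : m (ind (C ∩ Z) * (1 - T u f)) = m (c * (ind Z * (1 - T u f))) := by
    rw [ind_inter, mul_assoc, hc]
    exact (cE_mul_per H' hm _
      (((per_ind_cls H z₀).mono hle).mul (Per.one.sub (hfper.T u)))).symm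
  rw [e1]
  set A1 : Set G := {t | t ∈ Z ∧ c.1 t < κ / 2} with hA1
  set A3 : Set G := {t | t ∈ Z ∧ 1 - κ / 2 < f.1 (t + u)} with hA3
  set Y : Set G := {y | y ∈ cls H (p z₀) ∧ 1 - κ / 2 < f.1 y} with hY
  have hYper : Per H' (ind Y) := by
    intro x y hxy
    have hiff : x ∈ Y ↔ y ∈ Y := by
      simp only [hY, Set.mem_ofPred_eq, hfper x y hxy]
      have : x ∈ cls H (p z₀) ↔ y ∈ cls H (p z₀) := by
        rw [mem_cls, mem_cls]
        constructor
        · intro h
          have := H.add_mem (hle hxy) h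
          simpa using this
        · intro h
          have := H.sub_mem h (hle hxy)
          simpa using this
      rw [this]
    by_cases hx : x ∈ Y
    · rw [ind_mem hx, ind_mem (hiff.1 hx)]
    · rw [ind_notMem hx, ind_notMem (fun h => hx (hiff.2 h))]
  have e2 : ind A3 = T u (ind Y) := by
    ext t
    rw [T_apply]
    have hiff : t ∈ A3 ↔ t + u ∈ Y := by
      simp only [hA3, hY, Set.mem_ofPred_eq, hZ]
      have : t ∈ cls H z₀ ↔ t + u ∈ cls H (p z₀) := by
        rw [mem_cls, mem_cls, hp2]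
        rw [mem_cls] at hu
        constructor
        · intro h
          have := H.add_mem h hu
          have e : t + u - (z₀ + z₀) = t - z₀ + (u - z₀) := by abel
          rw [e]; exact this
        · intro h
          have := H.sub_mem h hu
          have e : t - z₀ = t + u - (z₀ + z₀) - (u - z₀) := by abel
          rw [e]; exact this
      rw [this]
    by_cases hx : t ∈ A3
    · rw [ind_mem hx, ind_mem (hiff.1 hx)]
    · rw [ind_notMem hx, ind_notMem (fun h => hx (hiff.2 h))]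
  have hpmem : ∀ x, p x ∈ H ↔ x ∈ H := by
    intro x
    constructor
    · intro h
      rw [← hp H] at h
      obtain ⟨y, hy, hyx⟩ := h
      have : y = x := p.injective hyx
      rwa [← this]
    · intro h
      rw [← hp H]
      exact ⟨x, h, rfl⟩
  have e3 : ind {t | t ∈ Z ∧ 1 - κ / 2 < f.1 (p t)} = comp (ind Y) p := by
    ext t
    rw [comp_apply]
    have hiff : (t ∈ Z ∧ 1 - κ / 2 < f.1 (p t)) ↔ p t ∈ Y := by
      simp only [hY, Set.mem_ofPred_eq, hZ]
      have : t ∈ cls H z₀ ↔ p t ∈ cls H (p z₀) := by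
        rw [mem_cls, mem_cls, ← map_sub, hpmem]
      rw [this]
    by_cases hx : (t ∈ Z ∧ 1 - κ / 2 < f.1 (p t))
    · rw [ind_mem (by exact hx), ind_mem (hiff.1 hx)]
    · rw [ind_notMem (by exact hx), ind_notMem (fun h => hx (hiff.2 h))]
  have h3 : m (ind A3) ≤ τ * (H.index : ℝ)⁻¹ := by
    rw [e2, hm.inv]
    rw [e3, hm.comp_aut H' p (hp H') hYper] at h2
    exact h2
  have h4 : m ((κ ^ 2 / 4) • (ind Z - ind A1 - ind A3)) ≤ m (c * (ind Z * (1 - T u f))) := by
    refine hm.mono fun t => ?_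
    simp only [Bd.coe_smul_apply, Bd.coe_sub_apply, Bd.coe_mul_apply, Bd.coe_one_apply, T_apply]
    have c0 : 0 ≤ c.1 t := cE_nonneg' H' hm C t
    have f1 : f.1 (t + u) ≤ 1 := cE_le_one' H' hm S _
    by_cases hz : t ∈ Z
    · rw [ind_mem hz]
      by_cases ha1 : t ∈ A1
      · rw [ind_mem ha1]
        have := ind_nonneg A3 t
        have h5 : 0 ≤ c.1 t * (1 * (1 - f.1 (t + u))) := mul_nonneg c0 (by linarith)
        nlinarith [sq_nonneg κ]
      · by_cases ha3 : t ∈ A3
        · rw [ind_notMem ha1, ind_mem ha3]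
          have h5 : 0 ≤ c.1 t * (1 * (1 - f.1 (t + u))) := mul_nonneg c0 (by linarith)
          linarith
        · rw [ind_notMem ha1, ind_notMem ha3]
          have k1 : κ / 2 ≤ c.1 t := by
            by_contra hcon
            exact ha1 ⟨hz, not_le.1 hcon⟩
          have k2 : f.1 (t + u) ≤ 1 - κ / 2 := by
            by_contra hcon
            exact ha3 ⟨hz, not_le.1 hcon⟩
          have k3 : κ / 2 * (κ / 2) ≤ c.1 t * (1 - f.1 (t + u)) :=
            mul_le_mul k1 (by linarith) (by linarith) c0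
          nlinarith
    · rw [ind_notMem hz, ind_notMem (S := A1) (fun h => hz h.1),
        ind_notMem (S := A3) (fun h => hz h.1)]
      simp
  refine le_trans ?_ h4
  rw [map_smul, map_sub, map_sub, smul_eq_mul, hZ, hm.ind_cls H]
  have h6 : 0 < (H.index : ℝ)⁻¹ := inv_pos.2 (index_pos' H)
  have h7 : (1 - 2 * τ) * (H.index : ℝ)⁻¹ ≤ (H.index : ℝ)⁻¹ - m (ind A1) - m (ind A3) := by
    linarith
  calc κ ^ 2 / 4 * (1 - 2 * τ) * (H.index : ℝ)⁻¹ = κ ^ 2 / 4 * ((1 - 2 * τ) * (H.index : ℝ)⁻¹) := by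
        ring
    _ ≤ _ := mul_le_mul_of_nonneg_left h7 (by positivity)

end Pool.Agent.LibSumset
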