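import Pool.Agent.LibSumset.Step2

set_option autoImplicit false

open Filter Topology

namespace Pool.Agent.LibSumset

variable {G : Type*} [AddCommGroup G] {m : Bd G →ₗ[ℝ] ℝ}

theorem mem_iff_of_map {p : G ≃+ G} (hp : ∀ H : AddSubgroup G, H.map (p : G →+ G) = H)
    (H : AddSubgroup G) (x : G) : p x ∈ H ↔ x ∈ H := by
  constructor
  · intro h
    rw [← hp H] at h
    obtain ⟨y, hy, hyx⟩ := h
    have : y = x := p.injective hyx
    rwa [← this]
  · intro h
    rw [← hp H]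
    exact ⟨x, h, rfl⟩

theorem per_comp {p : G ≃+ G} (hp : ∀ H : AddSubgroup G, H.map (p : G →+ G) = H)
    {H : AddSubgroup G} {f : Bd G} (hf : Per H f) : Per H (comp f p) := by
  intro x y h
  rw [comp_apply, comp_apply]
  refine hf _ _ ?_
  rw [← map_sub, mem_iff_of_map hp]
  exact h

theorem per_ind_of_iff {H : AddSubgroup G} {A : Set G} (h : ∀ x y, y - x ∈ H → (x ∈ A ↔ y ∈ A)) :
    Per H (ind A) := by
  intro x y hxy
  by_cases hx : x ∈ A
  · rw [ind_mem hx, ind_mem ((h x y hxy).1 hx)]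
  · rw [ind_notMem hx, ind_notMem (fun h' => hx ((h x y hxy).2 h'))]

/-- the variance function -/
noncomputable def vf (hm : IsMean m) (H H' : AddSubgroup G) (p : G ≃+ G) (C S : Set G) : Bd G :=
  (cE H' hm (ind C) - cE H hm (ind C)) * (cE H' hm (ind C) - cE H hm (ind C)) +
  comp ((cE H' hm (ind S) - cE H hm (ind S)) * (cE H' hm (ind S) - cE H hm (ind S))) p

theorem vf_nonneg (hm : IsMean m) (H H' : AddSubgroup G) (p : G ≃+ G) (C S : Set G) (x : G) :
    0 ≤ (vf hm H H' p C S).1 x := by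
  unfold vf
  simp only [Bd.coe_add_apply, Bd.coe_mul_apply, comp_apply]
  exact add_nonneg (mul_self_nonneg _) (mul_self_nonneg _)

theorem m_vf (hm : IsMean m) {H H' : AddSubgroup G} [H.FiniteIndex] [H'.FiniteIndex] (hle : H' ≤ H)
    (p : G ≃+ G) (hp : ∀ H : AddSubgroup G, H.map (p : G →+ G) = H) (C S : Set G) {ε : ℝ}
    (h1 : en H' hm (ind C) ≤ en H hm (ind C) + ε) (h2 : en H' hm (ind S) ≤ en H hm (ind S) + ε) :
    m (vf hm H H' p C S) ≤ 2 * ε := by
  unfold vf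
  rw [map_add, cE_diff hm _ hle]
  have hper : Per H' ((cE H' hm (ind S) - cE H hm (ind S)) * (cE H' hm (ind S) - cE H hm (ind S))) := by
    have := (per_cE H' hm (ind S)).sub ((per_cE H hm (ind S)).mono hle)
    exact this.mul this
  rw [hm.comp_aut H' p (hp H') hper, cE_diff hm _ hle]
  linarith

theorem step [Infinite G] (hm : IsMean m) (Hs : ℕ → AddSubgroup G) [hfi : ∀ j, (Hs j).FiniteIndex]
    (hanti : Antitone Hs) (p : G ≃+ G) (hp : ∀ H : AddSubgroup G, H.map (p : G →+ G) = H)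
    (hp2 : ∀ t, p t = t + t) (S : Set G)
    (hWM : ∀ η : ℝ, 0 < η → ∀ᶠ J in atTop, ∀ φ : Bd G, m (φ * φ) ≤ 1 →
      m (cor hm φ (ind S - cE (Hs J) hm (ind S)) * cor hm φ (ind S - cE (Hs J) hm (ind S))) ≤ η)
    {κ : ℝ} (hκ : 0 < κ) (hκ1 : κ ≤ 1) (C : Set G) (hR : Rob hm Hs p (ind S) κ C) (F : Finset G) :
    ∃ u ∈ C, u ∉ F ∧ ∃ κ' : ℝ, 0 < κ' ∧ κ' ≤ 1 ∧ Rob hm Hs p (ind S) κ' {t | t ∈ C ∧ t + u ∉ S} := by
  set ε : ℝ := κ ^ 5 / 800 with hε
  have hε0 : 0 < ε := by positivity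
  obtain ⟨j1, hj1⟩ := mono_bdd_cauchy (fun j => en (Hs j) hm (ind C))
    (fun a b hab => en_mono hm _ (hanti hab)) 1
    (fun n => en_le_one _ hm _ (ind_nonneg C) (ind_le_one C)) hε0
  obtain ⟨j2, hj2⟩ := mono_bdd_cauchy (fun j => en (Hs j) hm (ind S))
    (fun a b hab => en_mono hm _ (hanti hab)) 1
    (fun n => en_le_one _ hm _ (ind_nonneg S) (ind_le_one S)) hε0
  obtain ⟨j, hjA, hjge⟩ := (hR.and_eventually (eventually_ge_atTop (max j1 j2))).exists
  have hj1' := hj1 j (le_trans (le_max_left _ _) hjge)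
  have hj2' := hj2 j (le_trans (le_max_right _ _) hjge)
  set H := Hs j with hH
  set A : Set G := {t | κ ≤ (cE H hm (ind C)).1 t ∧ (cE H hm (ind S)).1 (p t) ≤ 1 - κ} with hA
  have hAper : Per H (ind A) := by
    refine per_ind_of_iff fun x y hxy => ?_
    have e1 := per_cE H hm (ind C) x y hxy
    have e2 := per_comp hp (per_cE H hm (ind S)) x y hxy
    rw [comp_apply, comp_apply] at e2
    simp only [hA, Set.mem_ofPred_eq, e1, e2]
  -- pigeonhole
  have hpig : ∀ j', j ≤ j' → ∃ q : G ⧸ H, q.out ∈ A ∧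
      m (vf hm H (Hs j') p C S * ind (cls H q.out)) ≤ 2 * ε / κ * (H.index : ℝ)⁻¹ := by
    intro j' hj'
    exact pigeon hm H A hAper _ (vf_nonneg hm _ _ p C S) hκ hjA
      (m_vf hm (hanti hj') p hp C S (hj1' j') (hj2' j'))
  have hfreq : ∃ q : G ⧸ H, ∃ᶠ j' in atTop, (j ≤ j' ∧ q.out ∈ A ∧
      m (vf hm H (Hs j') p C S * ind (cls H q.out)) ≤ 2 * ε / κ * (H.index : ℝ)⁻¹) := by
    by_contra hcon
    push Not at hcon
    have h1 := Filter.eventually_all.2 hcon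
    obtain ⟨j', h2, h3⟩ := (h1.and (eventually_ge_atTop j)).exists
    obtain ⟨q, hq1, hq2⟩ := hpig j' h3
    exact absurd hq2 (not_le.2 (h2 q h3 hq1))
  obtain ⟨q, hq⟩ := hfreq
  set z₀ : G := q.out with hz₀
  set Z : Set G := cls H z₀ with hZ
  have hz₀A : z₀ ∈ A := by
    obtain ⟨j', -, h, -⟩ := hq.exists
    exact h
  set N : ℝ := (H.index : ℝ) with hN
  have hN0 : 0 < N := index_pos' H
  have hN1 : 1 ≤ N := by
    have : 1 ≤ H.index := Nat.one_le_iff_ne_zero.2 AddSubgroup.FiniteIndex.index_ne_zero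
    rw [hN]; exact_mod_cast this
  set τ : ℝ := κ ^ 2 / 100 with hτ
  have hZc : ∀ t ∈ Z, (cE H hm (ind C)).1 t = (cE H hm (ind C)).1 z₀ := fun t ht =>
    per_cE H hm _ _ _ ht
  have hZf : ∀ t ∈ Z, (cE H hm (ind S)).1 (p t) = (cE H hm (ind S)).1 (p z₀) := fun t ht => by
    have := per_comp hp (per_cE H hm (ind S)) z₀ t ht
    simpa using this
  -- the two bad sets are small
  have hbad1 : ∀ j', m (vf hm H (Hs j') p C S * ind Z) ≤ 2 * ε / κ * N⁻¹ →
      m (ind {t | t ∈ Z ∧ (cE (Hs j') hm (ind C)).1 t < κ / 2}) ≤ τ * N⁻¹ := by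
    intro j' hj'
    have h1 := m_set_le hm (A := {t | t ∈ Z ∧ (cE (Hs j') hm (ind C)).1 t < κ / 2})
      (v := vf hm H (Hs j') p C S * ind Z) (c := (κ / 2) ^ 2) (by positivity)
      (fun x => mul_nonneg (vf_nonneg hm _ _ p C S x) (ind_nonneg _ _)) (by
        rintro x ⟨hx1, hx2⟩
        rw [Bd.coe_mul_apply, ind_mem hx1, mul_one]
        unfold vf
        simp only [Bd.coe_add_apply, Bd.coe_mul_apply, comp_apply, Bd.coe_sub_apply]
        have h2 : κ ≤ (cE H hm (ind C)).1 x := by rw [hZc x hx1]; exact hz₀A.1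
        have h3 : κ / 2 ≤ (cE H hm (ind C)).1 x - (cE (Hs j') hm (ind C)).1 x := by linarith
        have h4 := mul_self_nonneg ((cE (Hs j') hm (ind S)).1 (p x) - (cE H hm (ind S)).1 (p x))
        nlinarith)
    refine h1.trans ?_
    rw [div_le_iff₀ (by positivity)]
    refine hj'.trans (le_of_eq ?_)
    rw [hε, hτ]; field_simp; ring
  have hbad2 : ∀ j', m (vf hm H (Hs j') p C S * ind Z) ≤ 2 * ε / κ * N⁻¹ →
      m (ind {t | t ∈ Z ∧ 1 - κ / 2 < (cE (Hs j') hm (ind S)).1 (p t)}) ≤ τ * N⁻¹ := by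
    intro j' hj'
    have h1 := m_set_le hm (A := {t | t ∈ Z ∧ 1 - κ / 2 < (cE (Hs j') hm (ind S)).1 (p t)})
      (v := vf hm H (Hs j') p C S * ind Z) (c := (κ / 2) ^ 2) (by positivity)
      (fun x => mul_nonneg (vf_nonneg hm _ _ p C S x) (ind_nonneg _ _)) (by
        rintro x ⟨hx1, hx2⟩
        rw [Bd.coe_mul_apply, ind_mem hx1, mul_one]
        unfold vf
        simp only [Bd.coe_add_apply, Bd.coe_mul_apply, comp_apply, Bd.coe_sub_apply]
        have h2 : (cE H hm (ind S)).1 (p x) ≤ 1 - κ := by rw [hZf x hx1]; exact hz₀A.2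
        have h3 : κ / 2 ≤ (cE (Hs j') hm (ind S)).1 (p x) - (cE H hm (ind S)).1 (p x) := by linarith
        have h4 := mul_self_nonneg ((cE (Hs j') hm (ind C)).1 x - (cE H hm (ind C)).1 x)
        nlinarith)
    refine h1.trans ?_
    rw [div_le_iff₀ (by positivity)]
    refine hj'.trans (le_of_eq ?_)
    rw [hε, hτ]; field_simp; ring
  -- choose J
  set η : ℝ := κ ^ 5 / (200 * N ^ 3) with hη
  have hη0 : 0 < η := by positivity
  obtain ⟨J, ⟨hjJ, -, hJv⟩, hJWM⟩ := (hq.and_eventually (hWM η hη0)).exists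
  set f := cE (Hs J) hm (ind S) with hf
  set w := ind S - f with hw
  set φ := ind (C ∩ Z) with hφ
  have hφφ : m (φ * φ) ≤ 1 := by
    rw [hφ, ind_mul_self]; exact hm.le_of_le (ind_le_one _)
  have hcor := hJWM φ hφφ
  have hmφ : κ * N⁻¹ ≤ m φ := by
    have h1 := hz₀A.1
    rw [cE_apply] at h1
    rw [hφ, ind_inter]
    rw [← div_eq_mul_inv, div_le_iff₀ hN0, mul_comm]
    exact h1
  -- choose u
  have hu : ∃ u ∈ C, u ∈ Z ∧ u ∉ F ∧ |m (φ * T u w)| ≤ κ ^ 2 / (10 * N) := by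
    by_contra hcon
    push Not at hcon
    have h1 : m φ ≤ m (ind (F : Set G) + (100 * N ^ 2 / κ ^ 4) • (cor hm φ w * cor hm φ w)) := by
      refine hm.mono fun u => ?_
      simp only [Bd.coe_add_apply, Bd.coe_smul_apply, Bd.coe_mul_apply, cor_apply]
      have h2 : 0 ≤ 100 * N ^ 2 / κ ^ 4 * (m (φ * T u w) * m (φ * T u w)) := by
        have := mul_self_nonneg (m (φ * T u w))
        positivity
      by_cases hu : u ∈ C ∩ Z
      · by_cases huF : u ∈ F
        · rw [hφ, ind_mem hu, ind_mem (by exact huF)]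
          linarith
        · rw [hφ, ind_mem hu, ind_notMem (by exact huF)]
          have h3 := hcon u hu.1 hu.2 huF
          have h4 : (κ ^ 2 / (10 * N)) ^ 2 ≤ m (φ * T u w) * m (φ * T u w) := by
            rw [← sq, ← sq_abs (m (φ * T u w))]
            exact pow_le_pow_left₀ (by positivity) h3.le 2
          have h5 : 100 * N ^ 2 / κ ^ 4 * (κ ^ 2 / (10 * N)) ^ 2 = 1 := by
            field_simp; ring
          have h6 := mul_le_mul_of_nonneg_left h4 (show 0 ≤ 100 * N ^ 2 / κ ^ 4 by positivity)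
          rw [h5] at h6
          rw [zero_add]; exact h6
      · rw [hφ, ind_notMem hu]
        have := ind_nonneg (F : Set G) u
        linarith
    rw [map_add, map_smul, hm.ind_finset, zero_add, smul_eq_mul] at h1
    have h2 : 100 * N ^ 2 / κ ^ 4 * m (cor hm φ w * cor hm φ w) ≤ 100 * N ^ 2 / κ ^ 4 * η :=
      mul_le_mul_of_nonneg_left hcor (by positivity)
    have h3 : 100 * N ^ 2 / κ ^ 4 * η = κ * N⁻¹ / 2 := by
      rw [hη]; field_simp; ring
    have h4 : 0 < κ * N⁻¹ := by positivity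
    linarith
  obtain ⟨u, huC, huZ, huF, hucor⟩ := hu
  refine ⟨u, huC, huF, ?_⟩
  have hmain := main_term hm (hanti hjJ) p hp hp2 C S z₀ (τ := τ) hκ (hbad1 J hJv) (hbad2 J hJv) u huZ
  set Cu : Set G := {t | t ∈ C ∧ t + u ∉ S} with hCu
  have hCuZ : ind (Cu ∩ Z) = φ * (1 - T u f) - φ * T u w := by
    ext t
    simp only [Bd.coe_sub_apply, Bd.coe_mul_apply, Bd.coe_one_apply, T_apply, hw]
    have e : φ.1 t * (1 - f.1 (t + u)) - φ.1 t * ((ind S).1 (t + u) - f.1 (t + u)) =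
        φ.1 t * (1 - (ind S).1 (t + u)) := by ring
    rw [e]
    by_cases h1 : t ∈ C ∩ Z
    · rw [hφ, ind_mem h1, one_mul]
      by_cases h2 : t + u ∈ S
      · rw [ind_mem h2, ind_notMem (fun h => h.1.2 h2), sub_self]
      · rw [ind_notMem h2, ind_mem (S := Cu ∩ Z) ⟨⟨h1.1, h2⟩, h1.2⟩, sub_zero]
    · rw [hφ, ind_notMem h1, zero_mul, ind_notMem (fun h => h1 ⟨h.1.1, h.2⟩)]
  set κ₁ : ℝ := κ ^ 2 / 10 with hκ₁
  have hCuZm : κ₁ * N⁻¹ ≤ m (ind (Cu ∩ Z)) := by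
    rw [hCuZ, map_sub]
    have h1 := (abs_le.1 hucor).2
    have h2 : κ ^ 2 / (10 * N) = κ ^ 2 / 10 * N⁻¹ := by field_simp
    rw [h2] at h1
    have h3 : (1 : ℝ) - 2 * τ ≥ 98 / 100 := by
      rw [hτ]; nlinarith
    have h4 : κ ^ 2 / 4 * (98 / 100) * N⁻¹ ≤ κ ^ 2 / 4 * (1 - 2 * τ) * N⁻¹ := by
      refine mul_le_mul_of_nonneg_right ?_ (by positivity)
      exact mul_le_mul_of_nonneg_left h3 (by positivity)
    have h5 : 0 < κ ^ 2 * N⁻¹ := by positivity
    rw [hκ₁]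
    have h6 := h4.trans hmain
    nlinarith
  set κ' : ℝ := κ₁ / (4 * N) with hκ'
  have hκ₁0 : 0 < κ₁ := by positivity
  have hκ'0 : 0 < κ' := by positivity
  have hκ'le : κ' ≤ κ₁ / 4 := by
    rw [hκ']
    exact div_le_div_of_nonneg_left hκ₁0.le (by norm_num) (by linarith)
  have hκ₁le : κ₁ ≤ κ / 10 := by
    rw [hκ₁]; nlinarith
  refine ⟨κ', hκ'0, by linarith, ?_⟩
  refine hq.mono fun j' hj' => ?_
  obtain ⟨hjj', -, hv'⟩ := hj'
  set c' := cE (Hs j') hm (ind Cu) with hc'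
  set f' := cE (Hs j') hm (ind S) with hf'
  set D : Set G := {t | κ' ≤ c'.1 t ∧ f'.1 (p t) ≤ 1 - κ'} with hD
  set A2 : Set G := {t | t ∈ Z ∧ 1 - κ / 2 < f'.1 (p t)} with hA2
  have e1 : m (c' * ind Z) = m (ind (Cu ∩ Z)) := by
    rw [ind_inter, hc']
    exact cE_mul_per (Hs j') hm _ ((per_ind_cls H z₀).mono (hanti hjj'))
  have h1 : m (c' * ind Z) ≤ m (ind D + ind A2 + κ' • ind Z) := by
    refine hm.mono fun t => ?_
    simp only [Bd.coe_add_apply, Bd.coe_smul_apply, Bd.coe_mul_apply]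
    have n1 := ind_nonneg D t
    have n2 := ind_nonneg A2 t
    have c1 : c'.1 t ≤ 1 := cE_le_one' _ hm Cu t
    by_cases hz : t ∈ Z
    · rw [ind_mem hz, mul_one, mul_one]
      by_cases hc : κ' ≤ c'.1 t
      · by_cases hf2 : f'.1 (p t) ≤ 1 - κ'
        · rw [ind_mem (S := D) ⟨hc, hf2⟩]; linarith
        · rw [ind_mem (S := A2) ⟨hz, by push Not at hf2; linarith⟩]; linarith
      · push Not at hc; linarith
    · rw [ind_notMem hz]; simp only [mul_zero, add_zero]; linarith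
  rw [e1, map_add, map_add, map_smul, smul_eq_mul, hZ, hm.ind_cls H] at h1
  have h2 := hbad2 j' hv'
  have h3 : κ₁ * N⁻¹ ≤ m (ind D) + τ * N⁻¹ + κ' * N⁻¹ := by
    linarith
  have h4 : κ' * N⁻¹ ≤ κ₁ / 4 * N⁻¹ := mul_le_mul_of_nonneg_right hκ'le (by positivity)
  have h5 : τ * N⁻¹ = κ₁ / 10 * N⁻¹ := by rw [hτ, hκ₁]; ring
  have h6 : κ' = κ₁ / 4 * N⁻¹ := by rw [hκ']; field_simp
  have h7 : 0 < κ₁ * N⁻¹ := by positivity
  show κ' ≤ m (ind D)
  rw [h6]
  nlinarith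

end Pool.Agent.LibSumset
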